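import Pool.Agent.NH65.SN.Defs

/-!
# SN-6: few Hecke points of level `p` are on geodesics of discriminant `D`
-/

set_option autoImplicit false
open scoped UpperHalfPlane MatrixGroups

namespace Pool.Agent.NH65.SN.Count1

open Pool.Agent.NH65.SN Finset

/-- transport of a form -/
theorem onForm_trans {e z : ℍ} {a b d A B C : ℤ} (hd : d ≠ 0)
    (he : (e : ℂ) = ((a : ℂ) * z + b) / d) (h : OnForm A B C e) :
    OnForm (A * a ^ 2) (2 * A * a * b + B * a * d) (A * b ^ 2 + B * b * d + C * d ^ 2) z := by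
  have hd' : (d : ℝ) ≠ 0 := by exact_mod_cast hd
  unfold OnForm at h ⊢
  have h1 : e.re = (a * z.re + b) / d := by
    have h2 : e.re = ((e : ℂ)).re := rfl
    rw [h2, he]
    have h3 : (((a : ℂ) * z + b) / d) = (((a * z.re + b) / d : ℝ) : ℂ) +
        (((a * z.im) / d : ℝ) : ℂ) * Complex.I := by
      have h4 : (z : ℂ) = (z.re : ℂ) + (z.im : ℂ) * Complex.I := (Complex.re_add_im _).symm
      rw [h4]
      push_cast
      ring
    rw [h3]
    simp
  have h5 : ‖(e : ℂ)‖ ^ 2 = (a ^ 2 * ‖(z : ℂ)‖ ^ 2 + 2 * a * b * z.re + b ^ 2) / d ^ 2 := by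
    rw [← Complex.normSq_eq_norm_sq, ← Complex.normSq_eq_norm_sq, he, map_div₀]
    have h6 : Complex.normSq (d : ℂ) = (d : ℝ) ^ 2 := by
      rw [Complex.normSq_apply]
      simp [sq]
    have h7 : Complex.normSq ((a : ℂ) * z + b) =
        a ^ 2 * Complex.normSq (z : ℂ) + 2 * a * b * z.re + b ^ 2 := by
      rw [Complex.normSq_apply, Complex.normSq_apply]
      have h8 : z.re = (z : ℂ).re := rfl
      rw [h8]
      simp
      ring
    rw [h6, h7]
  rw [h1, h5] at h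
  have h9 := congrArg (fun t : ℝ => t * (d : ℝ) ^ 2) h
  simp only [zero_mul] at h9
  push_cast
  rw [← h9]
  field_simp
  ring

/-- division of a form -/
theorem onForm_div {z : ℍ} {n A B C : ℤ} (hn : n ≠ 0) (h : OnForm (n * A) (n * B) (n * C) z) :
    OnForm A B C z := by
  unfold OnForm at h ⊢
  have hn' : (n : ℝ) ≠ 0 := by exact_mod_cast hn
  refine mul_left_cancel₀ hn' ?_
  push_cast at h
  linear_combination h

/-- a good prime divides the form -/
theorem good_div {z : ℍ} {p : ℕ} (hp : p.Prime) (hG : Good z p) {A B C : ℤ} (h : OnForm A B C z)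
    (hd : (p : ℤ) ∣ B ^ 2 - 4 * A * C) : ∃ A' B' C' : ℤ, A = p * A' ∧ B = p * B' ∧ C = p * C' ∧
      OnForm A' B' C' z := by
  obtain ⟨⟨A', hA⟩, ⟨B', hB⟩, ⟨C', hC⟩⟩ := hG.1 A B C h hd
  refine ⟨A', B', C', hA, hB, hC, ?_⟩
  rw [hA, hB, hC] at h
  exact onForm_div (by exact_mod_cast hp.ne_zero) h

theorem not_dvd_small {p : ℕ} {u : ℤ} (h1 : u ≠ 0) (h2 : |u| < p) : ¬ (p : ℤ) ∣ u := by
  intro h
  have h3 := Int.le_of_dvd (abs_pos.2 h1) ((dvd_abs _ _).2 h)
  omega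

theorem s_count1 (h1 : S_HPT) : S_COUNT1 := by
  classical
  intro z D hD p hp hp2 hDp hG F hF
  have hp0 : (p : ℤ) ≠ 0 := by exact_mod_cast hp.ne_zero
  have hpZ : Prime (p : ℤ) := Nat.prime_iff_prime_int.1 hp
  have hDn : ¬ (p : ℤ) ∣ D := by
    refine not_dvd_small hD.ne' ?_
    rw [abs_of_pos hD]
    exact hDp
  -- the covering set
  set T : Finset (ℕ × ℕ) := insert (1, 0) (F.biUnion fun f =>
    ((range p).filter fun b : ℕ => f.2.1 ^ 2 - 4 * f.1 * f.2.2 = D ∧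
      (p : ℤ) ∣ f.1 * (b : ℤ) ^ 2 - f.2.1 * b + f.2.2).image fun b => (p, b)) with hT
  have hsub : {x : ℕ × ℕ | x ∈ hk p ∧ Geo D (ptH p x z)} ⊆ (T : Set (ℕ × ℕ)) := by
    rintro ⟨d, b⟩ ⟨hx, A, B, C, hdisc, hon⟩
    rw [hT, Finset.coe_insert, Set.mem_insert_iff]
    rcases (h1.2.1 p hp (d, b)).1 hx with h | ⟨hd, hb⟩
    · exact Or.inl h
    right
    simp only at hd hb
    subst hd
    have he : ((ptH d (d, b) z : ℍ) : ℂ) = (((1 : ℤ) : ℂ) * z + ((b : ℤ) : ℂ)) / ((d : ℤ) : ℂ) := by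
      rw [h1.1 d (d, b) hx z]
      unfold pt
      simp only
      rw [Nat.div_self hp.pos]
      push_cast
      ring
    have hon' := onForm_trans hp0 he hon
    obtain ⟨A', B', C', hA, hB, hC, hon2⟩ := good_div hp hG hon' (by
      refine ⟨d * D, ?_⟩
      rw [← hdisc]
      ring)
    have hA1 : A = d * A' := by linear_combination hA
    have hB1 : B = B' - 2 * A' * b := by
      refine mul_left_cancel₀ hp0 ?_
      linear_combination hB - 2 * (b : ℤ) * hA1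
    have hC1 : C' = A' * (b : ℤ) ^ 2 + B * b + C * d := by
      refine mul_left_cancel₀ hp0 ?_
      linear_combination -hC + (b : ℤ) ^ 2 * hA1
    have hdisc' : B' ^ 2 - 4 * A' * C' = D := by
      rw [← hdisc, hC1, hA1, hB1]
      ring
    have hmem := hF A' B' C' hdisc' hon2
    rw [Finset.mem_coe, mem_biUnion]
    refine ⟨(A', B', C'), hmem, ?_⟩
    rw [mem_image]
    refine ⟨b, ?_, rfl⟩
    rw [mem_filter, mem_range]
    refine ⟨hb, hdisc', ⟨C, ?_⟩⟩
    simp only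
    rw [hC1, hB1]
    ring
  have hcard : T.card ≤ 2 * F.card + 1 := by
    rw [hT]
    refine (card_insert_le _ _).trans (Nat.add_le_add_right ?_ 1)
    rw [mul_comm]
    refine card_biUnion_le_card_mul _ _ _ fun f _ => card_image_le.trans ?_
    by_contra hcon
    push Not at hcon
    obtain ⟨b1, b2, b3, m1, m2, m3, n12, n13, n23⟩ := two_lt_card_iff.1 hcon
    rw [mem_filter, mem_range] at m1 m2 m3
    obtain ⟨l1, hdf, d1⟩ := m1
    obtain ⟨l2, -, d2⟩ := m2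
    obtain ⟨l3, -, d3⟩ := m3
    have nd : ∀ b b' : ℕ, b < p → b' < p → b ≠ b' → ¬ (p : ℤ) ∣ (b : ℤ) - b' := by
      intro b b' hb hb' hne
      refine not_dvd_small (by omega) ?_
      rw [abs_lt]
      omega
    have key : ∀ b b' : ℕ, b < p → b' < p → b ≠ b' →
        (p : ℤ) ∣ f.1 * (b : ℤ) ^ 2 - f.2.1 * b + f.2.2 →
        (p : ℤ) ∣ f.1 * (b' : ℤ) ^ 2 - f.2.1 * b' + f.2.2 →
        (p : ℤ) ∣ f.1 * ((b : ℤ) + b') - f.2.1 := by
      intro b b' hb hb' hne h h'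
      have h5 := dvd_sub h h'
      rw [show f.1 * (b : ℤ) ^ 2 - f.2.1 * b + f.2.2 - (f.1 * (b' : ℤ) ^ 2 - f.2.1 * b' + f.2.2) =
        ((b : ℤ) - b') * (f.1 * ((b : ℤ) + b') - f.2.1) by ring] at h5
      exact (hpZ.dvd_or_dvd h5).resolve_left (nd b b' hb hb' hne)
    have k12 := key b1 b2 l1 l2 n12 d1 d2
    have k13 := key b1 b3 l1 l3 n13 d1 d3
    have k := dvd_sub k12 k13
    rw [show f.1 * ((b1 : ℤ) + b2) - f.2.1 - (f.1 * ((b1 : ℤ) + b3) - f.2.1) =
      ((b2 : ℤ) - b3) * f.1 by ring] at k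
    have kA := (hpZ.dvd_or_dvd k).resolve_left (nd b2 b3 l2 l3 n23)
    have kB : (p : ℤ) ∣ f.2.1 := by
      have h6 := dvd_sub (dvd_mul_of_dvd_left kA ((b1 : ℤ) + b2)) k12
      rwa [sub_sub_cancel] at h6
    apply hDn
    rw [← hdf]
    refine dvd_sub (dvd_pow kB two_ne_zero) ?_
    exact dvd_mul_of_dvd_left (dvd_mul_of_dvd_right kA 4) _
  calc {x : ℕ × ℕ | x ∈ hk p ∧ Geo D (ptH p x z)}.ncard ≤ (T : Set (ℕ × ℕ)).ncard :=
        Set.ncard_le_ncard hsub T.finite_toSet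
    _ = T.card := Set.ncard_coe_finset T
    _ ≤ 2 * F.card + 1 := hcard

end Pool.Agent.NH65.SN.Count1
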