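import Pool.Agent.NH65.SN.Count1

/-!
# SN-7: few primitive Hecke points of level `p ^ 2` are on geodesics of discriminant `D`
-/

set_option autoImplicit false
open scoped UpperHalfPlane MatrixGroups

namespace Pool.Agent.NH65.SN.Count2

open Pool.Agent.NH65.SN Finset Pool.Agent.NH65.SN.Count1

/-- a good prime whose square divides the form twice -/
theorem good_div2 {z : ℍ} {p : ℕ} (hp : p.Prime) (hG : Good z p) {A B C D : ℤ}
    (h : OnForm A B C z) (hd : B ^ 2 - 4 * A * C = (p : ℤ) ^ 4 * D) :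
    ∃ A' B' C' : ℤ, A = p ^ 2 * A' ∧ B = p ^ 2 * B' ∧ C = p ^ 2 * C' ∧
      OnForm A' B' C' z := by
  have hp0 : (p : ℤ) ≠ 0 := by exact_mod_cast hp.ne_zero
  obtain ⟨A1, B1, C1, hA, hB, hC, h1⟩ := good_div hp hG h ⟨p ^ 3 * D, by rw [hd]; ring⟩
  have hd1 : B1 ^ 2 - 4 * A1 * C1 = (p : ℤ) ^ 2 * D := by
    have h2 : (p : ℤ) ^ 2 ≠ 0 := pow_ne_zero 2 hp0
    refine mul_left_cancel₀ h2 ?_
    rw [hA, hB, hC] at hd
    linear_combination hd
  obtain ⟨A2, B2, C2, hA2, hB2, hC2, h2⟩ := good_div hp hG h1 ⟨p * D, by rw [hd1]; ring⟩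
  refine ⟨A2, B2, C2, ?_, ?_, ?_, h2⟩
  · rw [hA, hA2]; ring
  · rw [hB, hB2]; ring
  · rw [hC, hC2]; ring

theorem s_count2 (h1 : S_HPT) : S_COUNT2 := by
  classical
  intro z D hD p hp hp2 hDp hG F hF
  have hp0 : (p : ℤ) ≠ 0 := by exact_mod_cast hp.ne_zero
  have hpZ : Prime (p : ℤ) := Nat.prime_iff_prime_int.1 hp
  have hDn : ¬ (p : ℤ) ∣ D := by
    refine not_dvd_small hD.ne' ?_
    rw [abs_of_pos hD]
    exact hDp
  have hp2n : ¬ (p : ℤ) ∣ 2 := not_dvd_small (by norm_num) (by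
    rw [abs_of_pos (by norm_num : (0 : ℤ) < 2)]
    exact_mod_cast hp2)
  have hpp : (p : ℤ) ^ 2 ≠ 0 := pow_ne_zero 2 hp0
  -- the covering set
  set T1 : Finset (ℕ × ℕ) := F.biUnion fun f =>
    ((range p).filter fun b : ℕ => 0 < b ∧ f.2.1 ^ 2 - 4 * f.1 * f.2.2 = D ∧
      ∃ A1 : ℤ, f.1 = p * A1 ∧ (p : ℤ) ∣ f.2.1 - A1 * b).image fun b => (p, b) with hT1
  set T2 : Finset (ℕ × ℕ) := F.biUnion fun f =>
    ((range (p ^ 2)).filter fun b : ℕ => f.2.1 ^ 2 - 4 * f.1 * f.2.2 = D ∧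
      (p : ℤ) ^ 2 ∣ f.1 * (b : ℤ) ^ 2 - f.2.1 * b + f.2.2).image fun b => (p ^ 2, b) with hT2
  set T : Finset (ℕ × ℕ) := insert (1, 0) (T1 ∪ T2) with hT
  have hsub : {x : ℕ × ℕ | x ∈ prim p ∧ Geo D (ptH (p ^ 2) x z)} ⊆ (T : Set (ℕ × ℕ)) := by
    rintro ⟨d, b⟩ ⟨hx, A, B, C, hdisc, hon⟩
    rw [hT, Finset.coe_insert, Set.mem_insert_iff, Finset.coe_union, Set.mem_union]
    have hxhk : (d, b) ∈ hk (p ^ 2) := mem_of_mem_erase hx
    rcases (h1.2.2.1 p hp (d, b)).1 hx with h | ⟨hd, hb0, hb⟩ | ⟨hd, hb⟩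
    · exact Or.inl h
    · right
      left
      simp only at hd hb hb0
      subst hd
      have he : ((ptH (d ^ 2) (d, b) z : ℍ) : ℂ) =
          (((d : ℤ) : ℂ) * z + ((b : ℤ) : ℂ)) / ((d : ℤ) : ℂ) := by
        rw [h1.1 (d ^ 2) (d, b) hxhk z]
        unfold pt
        simp only
        rw [sq, Nat.mul_div_cancel_left _ hp.pos]
        push_cast
        ring
      have hon' := onForm_trans hp0 he hon
      obtain ⟨A', B', C', hA, hB, hC, hon2⟩ := good_div2 (D := D) hp hG hon' (by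
        rw [← hdisc]
        ring)
      have hA1 : A = A' := by
        refine mul_left_cancel₀ hpp ?_
        linear_combination hA
      have hB1 : 2 * A * b = d * (B' - B) := by
        refine mul_left_cancel₀ hp0 ?_
        linear_combination hB
      have hdA : (d : ℤ) ∣ A := by
        have h5 : (d : ℤ) ∣ 2 * A * b := ⟨_, hB1⟩
        have hbn : ¬ (d : ℤ) ∣ b := not_dvd_small (by omega) (by
          rw [abs_of_nonneg (by positivity)]
          exact_mod_cast hb)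
        have h6 := (hpZ.dvd_or_dvd h5).resolve_right hbn
        exact (hpZ.dvd_or_dvd h6).resolve_left hp2n
      obtain ⟨A1, hAA⟩ := hdA
      have hB2 : B' = B + 2 * A1 * b := by
        refine mul_left_cancel₀ hp0 ?_
        linear_combination -hB1 + 2 * (b : ℤ) * hAA
      have hC1 : A1 * (b : ℤ) ^ 2 + B * b + C * d = d * C' := by
        refine mul_left_cancel₀ hp0 ?_
        linear_combination hC - (b : ℤ) ^ 2 * hAA
      have hdvd : (d : ℤ) ∣ B' - A1 * b := by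
        have h5 : (d : ℤ) ∣ b * (B' - A1 * b) := by
          refine ⟨C' - C, ?_⟩
          rw [hB2]
          linear_combination hC1
        have hbn : ¬ (d : ℤ) ∣ b := not_dvd_small (by omega) (by
          rw [abs_of_nonneg (by positivity)]
          exact_mod_cast hb)
        exact (hpZ.dvd_or_dvd h5).resolve_left hbn
      have hdisc' : B' ^ 2 - 4 * A' * C' = D := by
        refine mul_left_cancel₀ hpp ?_
        rw [← hdisc, ← hA1]
        have e1 : (d : ℤ) ^ 2 * (B' ^ 2 - 4 * A * C') = (d * B') ^ 2 - 4 * (d * A) * (d * C') := by ring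
        rw [e1, ← hC1, hB2, hAA]
        ring
      have hmem := hF A' B' C' hdisc' hon2
      rw [hT1, Finset.mem_coe, mem_biUnion]
      refine ⟨(A', B', C'), hmem, ?_⟩
      rw [mem_image]
      refine ⟨b, ?_, rfl⟩
      rw [mem_filter, mem_range]
      exact ⟨hb, hb0, hdisc', A1, hA1 ▸ hAA, hdvd⟩
    · right
      right
      simp only at hd hb
      subst hd
      have he : ((ptH (p ^ 2) (p ^ 2, b) z : ℍ) : ℂ) =
          (((1 : ℤ) : ℂ) * z + ((b : ℤ) : ℂ)) / (((p : ℤ) ^ 2 : ℤ) : ℂ) := by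
        rw [h1.1 (p ^ 2) (p ^ 2, b) hxhk z]
        unfold pt
        simp only
        rw [Nat.div_self (pow_pos hp.pos 2)]
        push_cast
        ring
      have hon' := onForm_trans hpp he hon
      obtain ⟨A', B', C', hA, hB, hC, hon2⟩ := good_div2 (D := D) hp hG hon' (by
        rw [← hdisc]
        ring)
      have hA1 : A = p ^ 2 * A' := by linear_combination hA
      have hB1 : B = B' - 2 * A' * b := by
        refine mul_left_cancel₀ hpp ?_
        linear_combination hB - 2 * (b : ℤ) * hA1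
      have hC1 : C' = A' * (b : ℤ) ^ 2 + B * b + C * p ^ 2 := by
        refine mul_left_cancel₀ hpp ?_
        linear_combination -hC + (b : ℤ) ^ 2 * hA1
      have hdisc' : B' ^ 2 - 4 * A' * C' = D := by
        rw [← hdisc, hC1, hA1, hB1]
        ring
      have hmem := hF A' B' C' hdisc' hon2
      rw [hT2, Finset.mem_coe, mem_biUnion]
      refine ⟨(A', B', C'), hmem, ?_⟩
      rw [mem_image]
      refine ⟨b, ?_, rfl⟩
      rw [mem_filter, mem_range]
      refine ⟨hb, hdisc', ⟨C, ?_⟩⟩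
      simp only
      rw [hC1, hB1]
      ring
  have hcard1 : T1.card ≤ F.card * 1 := by
    rw [hT1]
    refine card_biUnion_le_card_mul _ _ _ fun f _ => card_image_le.trans ?_
    rw [card_le_one]
    intro b1 m1 b2 m2
    rw [mem_filter, mem_range] at m1 m2
    obtain ⟨l1, -, hdf, A1, hA1, d1⟩ := m1
    obtain ⟨l2, -, -, A2, hA2, d2⟩ := m2
    have hAA : A2 = A1 := mul_left_cancel₀ hp0 (hA2.symm.trans hA1)
    rw [hAA] at d2
    by_contra hne
    have h5 := dvd_sub d2 d1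
    rw [show f.2.1 - A1 * (b2 : ℤ) - (f.2.1 - A1 * (b1 : ℤ)) = ((b1 : ℤ) - b2) * A1 by ring] at h5
    have h6 := (hpZ.dvd_or_dvd h5).resolve_left (not_dvd_small (by omega) (by
      rw [abs_lt]
      omega))
    have h7 : (p : ℤ) ∣ f.2.1 := by
      have h8 := dvd_add d1 (dvd_mul_of_dvd_left h6 (b1 : ℤ))
      rwa [sub_add_cancel] at h8
    apply hDn
    rw [← hdf]
    refine dvd_sub (dvd_pow h7 two_ne_zero) ?_
    exact dvd_mul_of_dvd_left (dvd_mul_of_dvd_right ⟨A1, hA1⟩ 4) _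
  have hcard2 : T2.card ≤ F.card * 2 := by
    rw [hT2]
    refine card_biUnion_le_card_mul _ _ _ fun f _ => card_image_le.trans ?_
    by_contra hcon
    push Not at hcon
    obtain ⟨b1, b2, b3, m1, m2, m3, n12, n13, n23⟩ := two_lt_card_iff.1 hcon
    rw [mem_filter, mem_range] at m1 m2 m3
    obtain ⟨l1, hdf, d1⟩ := m1
    obtain ⟨l2, -, d2⟩ := m2
    obtain ⟨l3, -, d3⟩ := m3
    have nd2 : ∀ b b' : ℕ, b < p ^ 2 → b' < p ^ 2 → b ≠ b' → ¬ (p : ℤ) ^ 2 ∣ (b : ℤ) - b' := by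
      intro b b' hb hb' hne h
      have hb1 : (b : ℤ) < (p : ℤ) ^ 2 := by exact_mod_cast hb
      have hb2 : (b' : ℤ) < (p : ℤ) ^ 2 := by exact_mod_cast hb'
      have h3 := Int.le_of_dvd (abs_pos.2 (by omega : (b : ℤ) - b' ≠ 0)) ((dvd_abs _ _).2 h)
      have h4 : |(b : ℤ) - b'| < (p : ℤ) ^ 2 := by
        rw [abs_lt]
        constructor <;> omega
      omega
    have nd : ∀ b b' : ℕ, b < p ^ 2 → b' < p ^ 2 → b ≠ b' →
        (p : ℤ) ^ 2 ∣ f.1 * (b : ℤ) ^ 2 - f.2.1 * b + f.2.2 →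
        (p : ℤ) ^ 2 ∣ f.1 * (b' : ℤ) ^ 2 - f.2.1 * b' + f.2.2 →
        ¬ (p : ℤ) ∣ (b : ℤ) - b' ∧ (p : ℤ) ^ 2 ∣ f.1 * ((b : ℤ) + b') - f.2.1 := by
      intro b b' hb hb' hne h h'
      have h5 := dvd_sub h h'
      rw [show f.1 * (b : ℤ) ^ 2 - f.2.1 * b + f.2.2 - (f.1 * (b' : ℤ) ^ 2 - f.2.1 * b' + f.2.2) =
        ((b : ℤ) - b') * (f.1 * ((b : ℤ) + b') - f.2.1) by ring] at h5
      have hnp : ¬ (p : ℤ) ∣ (b : ℤ) - b' := by
        intro h6
        have h7 : (p : ℤ) ∣ f.1 * ((b : ℤ) + b') - f.2.1 := by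
          by_contra h8
          have h9 : IsCoprime ((p : ℤ) ^ 2) (f.1 * ((b : ℤ) + b') - f.2.1) :=
            ((Prime.coprime_iff_not_dvd hpZ).2 h8).pow_left
          exact nd2 b b' hb hb' hne (h9.dvd_of_dvd_mul_right h5)
        have h8 : (p : ℤ) ∣ 2 * f.1 * b - f.2.1 := by
          have h9 := dvd_add h7 (dvd_mul_of_dvd_left h6 f.1)
          rw [show f.1 * ((b : ℤ) + b') - f.2.1 + ((b : ℤ) - b') * f.1 =
            2 * f.1 * b - f.2.1 by ring] at h9
          exact h9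
        apply hDn
        rw [← hdf]
        have h10 : f.2.1 ^ 2 - 4 * f.1 * f.2.2 = (2 * f.1 * b - f.2.1) ^ 2 -
            4 * f.1 * (f.1 * (b : ℤ) ^ 2 - f.2.1 * b + f.2.2) := by ring
        rw [h10]
        refine dvd_sub (dvd_pow h8 two_ne_zero) (dvd_mul_of_dvd_right ?_ _)
        exact (dvd_pow_self (p : ℤ) two_ne_zero).trans h
      exact ⟨hnp, (((Prime.coprime_iff_not_dvd hpZ).2 hnp).pow_left).dvd_of_dvd_mul_left h5⟩
    have k12 := (nd b1 b2 l1 l2 n12 d1 d2).2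
    have k13 := (nd b1 b3 l1 l3 n13 d1 d3).2
    have k23 := (nd b2 b3 l2 l3 n23 d2 d3).1
    have k := dvd_sub k12 k13
    rw [show f.1 * ((b1 : ℤ) + b2) - f.2.1 - (f.1 * ((b1 : ℤ) + b3) - f.2.1) =
      ((b2 : ℤ) - b3) * f.1 by ring] at k
    have kA := (((Prime.coprime_iff_not_dvd hpZ).2 k23).pow_left).dvd_of_dvd_mul_left k
    have kA' : (p : ℤ) ∣ f.1 := (dvd_pow_self (p : ℤ) two_ne_zero).trans kA
    have kB : (p : ℤ) ∣ f.2.1 := by
      have h6 := dvd_sub (dvd_mul_of_dvd_left kA' ((b1 : ℤ) + b2))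
        ((dvd_pow_self (p : ℤ) two_ne_zero).trans k12)
      rwa [sub_sub_cancel] at h6
    apply hDn
    rw [← hdf]
    refine dvd_sub (dvd_pow kB two_ne_zero) ?_
    exact dvd_mul_of_dvd_left (dvd_mul_of_dvd_right kA' 4) _
  have hcard : T.card ≤ 3 * F.card + 1 := by
    rw [hT]
    have h5 := card_insert_le (1, 0) (T1 ∪ T2)
    have h6 := card_union_le T1 T2
    omega
  calc {x : ℕ × ℕ | x ∈ prim p ∧ Geo D (ptH (p ^ 2) x z)}.ncard ≤ (T : Set (ℕ × ℕ)).ncard :=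
        Set.ncard_le_ncard hsub T.finite_toSet
    _ = T.card := Set.ncard_coe_finset T
    _ ≤ 3 * F.card + 1 := hcard

end Pool.Agent.NH65.SN.Count2
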