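import Pool.Agent.NH65.SN.Defs

set_option autoImplicit false

namespace Pool.Agent.NH65.SN.Disj

open Pool.Agent.NH65.SN
open scoped UpperHalfPlane MatrixGroups

private lemma dvd_of_mul (p q : ℕ) (hp : p.Prime) (hq : q.Prime) (hpq : p ≠ q) (m a : ℤ)
    (hm : m = q ∨ m = q ^ 2) (h : (p : ℤ) ∣ m * a) : (p : ℤ) ∣ a := by
  have hp' : Prime (p : ℤ) := Nat.prime_iff_prime_int.mp hp
  have hnq : ¬ ((p : ℤ) ∣ (q : ℤ)) := by
    intro hd
    have : p ∣ q := by exact_mod_cast hd
    exact hpq ((Nat.prime_dvd_prime_iff_eq hp hq).mp this)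
  rcases hp'.dvd_or_dvd h with h | h
  · rcases hm with hm | hm
    · rw [hm] at h
      exact absurd h hnq
    · rw [hm] at h
      exact absurd (hp'.dvd_of_dvd_pow h) hnq
  · exact h

theorem s_disj : S_DISJ := by
  intro z p q hp hq hpq hzp hzq a b c d a' b' c' d' hdet hnd hdet' hnd' heq
  apply hnd
  have hpd : (p : ℤ) ∣ a * d - b * c := by
    rcases hdet with h | h
    · rw [h]
    · rw [h]
      exact dvd_pow_self _ (by norm_num)
  obtain ⟨hx, hy, hu, hv⟩ := hzp.2 (d' * a - b' * c) (d' * b - b' * d) (-c' * a + a' * c)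
    (-c' * b + a' * d) (by push_cast; linear_combination (-1 : ℂ) * heq)
    (by
      have e : (d' * a - b' * c) * (-c' * b + a' * d) - (d' * b - b' * d) * (-c' * a + a' * c)
          = (a * d - b * c) * (a' * d' - b' * c') := by ring
      rw [e]
      exact Dvd.dvd.mul_right hpd _)
  refine ⟨?_, ?_, ?_, ?_⟩
  · apply dvd_of_mul p q hp hq hpq _ _ hdet'
    have e : (a' * d' - b' * c') * a = a' * (d' * a - b' * c) + b' * (-c' * a + a' * c) := by ring
    rw [e]
    exact dvd_add (Dvd.dvd.mul_left hx _) (Dvd.dvd.mul_left hu _)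
  · apply dvd_of_mul p q hp hq hpq _ _ hdet'
    have e : (a' * d' - b' * c') * b = a' * (d' * b - b' * d) + b' * (-c' * b + a' * d) := by ring
    rw [e]
    exact dvd_add (Dvd.dvd.mul_left hy _) (Dvd.dvd.mul_left hv _)
  · apply dvd_of_mul p q hp hq hpq _ _ hdet'
    have e : (a' * d' - b' * c') * c = c' * (d' * a - b' * c) + d' * (-c' * a + a' * c) := by ring
    rw [e]
    exact dvd_add (Dvd.dvd.mul_left hx _) (Dvd.dvd.mul_left hu _)
  · apply dvd_of_mul p q hp hq hpq _ _ hdet'
    have e : (a' * d' - b' * c') * d = c' * (d' * b - b' * d) + d' * (-c' * b + a' * d) := by ring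
    rw [e]
    exact dvd_add (Dvd.dvd.mul_left hy _) (Dvd.dvd.mul_left hv _)

end Pool.Agent.NH65.SN.Disj
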