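import Pool.Agent.NH65.SN.Defs

set_option autoImplicit false

namespace Pool.Agent.NH65.SN.Disj2

open Pool.Agent.NH65.SN
open scoped UpperHalfPlane MatrixGroups

private lemma coe_smul_eq (g : SL(2, ℤ)) (z : UpperHalfPlane) :
    ((g • z : UpperHalfPlane) : ℂ)
      = ((g 0 0 : ℂ) * z + (g 0 1 : ℂ)) / ((g 1 0 : ℂ) * z + (g 1 1 : ℂ)) := by
  rw [UpperHalfPlane.specialLinearGroup_apply]
  simp

private lemma moeb_den_ne {g : SL(2, ℤ)} {z : ℂ} (hz : 0 < z.im) :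
    (g 1 0 : ℂ) * z + (g 1 1 : ℂ) ≠ 0 := by
  intro h0
  have him := congrArg Complex.im h0
  have hre := congrArg Complex.re h0
  simp at him hre
  have hdet : g 0 0 * g 1 1 - g 0 1 * g 1 0 = 1 := by
    have := g.det_coe
    rw [Matrix.det_fin_two] at this
    exact this
  rcases him with hC | hz0
  · rw [hC] at hre
    simp at hre
    rw [hC, hre] at hdet
    simp at hdet
  · linarith

private lemma rep (h1 : S_HPT) (z : ℍ) (p : ℕ) (hp : p.Prime) (s : ℕ × (ℕ × ℕ))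
    (hs : s ∈ idx p) :
    ∃ a b d : ℤ, (a * d - b * 0 = p ∨ a * d - b * 0 = p ^ 2) ∧
      ¬ ((p : ℤ) ∣ a ∧ (p : ℤ) ∣ b ∧ (p : ℤ) ∣ 0 ∧ (p : ℤ) ∣ d) ∧ (d : ℂ) ≠ 0 ∧
      ((ptH s.1 s.2 z : ℍ) : ℂ) = ((a : ℂ) * z + b) / d := by
  obtain ⟨hpt, hhk, hprim, -, -⟩ := h1
  have hpZ : (p : ℤ) ≠ 0 := by exact_mod_cast hp.ne_zero
  have hpC : (p : ℂ) ≠ 0 := by exact_mod_cast hp.ne_zero
  have hone : ¬ ((p : ℤ) ∣ 1) := by
    intro h
    have : p ∣ 1 := by exact_mod_cast h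
    exact hp.one_lt.ne' (Nat.dvd_one.mp this)
  rw [idx, Finset.mem_union, Finset.mem_image, Finset.mem_image] at hs
  rcases hs with ⟨x, hx, rfl⟩ | ⟨x, hx, rfl⟩
  · have e := hpt p x hx z
    rw [hhk p hp x] at hx
    rcases hx with rfl | ⟨hx1, hx2⟩
    · refine ⟨p, 0, 1, Or.inl (by ring), ?_, by norm_num, ?_⟩
      · rintro ⟨-, -, -, h⟩
        exact hone h
      · simp only at e ⊢
        rw [e]
        simp [pt]
    · refine ⟨1, x.2, p, Or.inl (by ring), ?_, by exact_mod_cast hpC, ?_⟩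
      · rintro ⟨h, -⟩
        exact hone h
      · simp only at e ⊢
        rw [e]
        simp [pt, hx1, Nat.div_self hp.pos]
  · have e := hpt (p ^ 2) x (Finset.mem_of_mem_erase hx) z
    rw [hprim p hp x] at hx
    rcases hx with rfl | ⟨hx1, hx2, hx3⟩ | ⟨hx1, hx2⟩
    · refine ⟨p ^ 2, 0, 1, Or.inr (by ring), ?_, by norm_num, ?_⟩
      · rintro ⟨-, -, -, h⟩
        exact hone h
      · simp only at e ⊢
        rw [e]
        simp [pt]
    · refine ⟨p, x.2, p, Or.inr (by ring), ?_, by exact_mod_cast hpC, ?_⟩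
      · rintro ⟨-, h, -⟩
        have h' : p ∣ x.2 := by exact_mod_cast h
        have := Nat.le_of_dvd hx2 h'
        omega
      · simp only at e ⊢
        rw [e]
        have e2 : p ^ 2 / p = p := by
          rw [pow_two, Nat.mul_div_cancel _ hp.pos]
        simp [pt, hx1, e2]
    · refine ⟨1, x.2, p ^ 2, Or.inr (by ring), ?_, by
        push_cast
        exact pow_ne_zero _ hpC, ?_⟩
      · rintro ⟨h, -⟩
        exact hone h
      · simp only at e ⊢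
        rw [e]
        simp [pt, hx1, Nat.div_self (pow_pos hp.pos 2)]

theorem s_disj2 (h1 : S_HPT) (h4 : S_DISJ) : S_DISJ2 := by
  intro z p q hp hq hpq hzp hzq s hs t ht g heq
  obtain ⟨a, b, d, hdet, hnd, hd0, hco⟩ := rep h1 z p hp s hs
  obtain ⟨a', b', d', hdet', hnd', hd0', hco'⟩ := rep h1 z q hq t ht
  have hg : g 0 0 * g 1 1 - g 0 1 * g 1 0 = 1 := by
    have := g.det_coe
    rw [Matrix.det_fin_two] at this
    exact this
  refine h4 z p q hp hq hpq hzp hzq a b 0 d (g 0 0 * a') (g 0 0 * b' + g 0 1 * d') (g 1 0 * a')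
    (g 1 0 * b' + g 1 1 * d') hdet hnd ?_ ?_ ?_
  · have e : g 0 0 * a' * (g 1 0 * b' + g 1 1 * d') - (g 0 0 * b' + g 0 1 * d') * (g 1 0 * a')
        = (g 0 0 * g 1 1 - g 0 1 * g 1 0) * (a' * d' - b' * 0) := by ring
    rw [e, hg, one_mul]
    exact hdet'
  · rintro ⟨k1, k2, k3, k4⟩
    apply hnd'
    refine ⟨?_, ?_, dvd_zero _, ?_⟩
    · have e : a' = g 1 1 * (g 0 0 * a') - g 0 1 * (g 1 0 * a') := by
        linear_combination (-a') * hg
      rw [e]
      exact dvd_sub (Dvd.dvd.mul_left k1 _) (Dvd.dvd.mul_left k3 _)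
    · have e : b' = g 1 1 * (g 0 0 * b' + g 0 1 * d') - g 0 1 * (g 1 0 * b' + g 1 1 * d') := by
        linear_combination (-b') * hg
      rw [e]
      exact dvd_sub (Dvd.dvd.mul_left k2 _) (Dvd.dvd.mul_left k4 _)
    · have e : d' = g 0 0 * (g 1 0 * b' + g 1 1 * d') - g 1 0 * (g 0 0 * b' + g 0 1 * d') := by
        linear_combination (-d') * hg
      rw [e]
      exact dvd_sub (Dvd.dvd.mul_left k4 _) (Dvd.dvd.mul_left k2 _)
  · have e : ((g • ptH t.1 t.2 z : ℍ) : ℂ) = ((ptH s.1 s.2 z : ℍ) : ℂ) := by rw [heq]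
    rw [coe_smul_eq, hco] at e
    have hden : (g 1 0 : ℂ) * ((ptH t.1 t.2 z : ℍ) : ℂ) + (g 1 1 : ℂ) ≠ 0 :=
      moeb_den_ne (ptH t.1 t.2 z).im_pos
    rw [div_eq_div_iff hden hd0] at e
    set w : ℂ := ((ptH t.1 t.2 z : ℍ) : ℂ) with hw
    have hw' : w * d' = (a' : ℂ) * z + b' := by
      rw [hco']
      field_simp
    push_cast
    linear_combination (-(d' : ℂ)) * e + (-(g 1 0 : ℂ) * ((a : ℂ) * z + b) + (g 0 0 : ℂ) * d) * hw'

end Pool.Agent.NH65.SN.Disj2
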