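import Pool.Agent.NH65.SN.Defs

set_option autoImplicit false
open scoped UpperHalfPlane

/-!
# SN-8 FIN: finitely many forms of given discriminant meet a compact set
-/

namespace Pool.Agent.NH65.SN.Fin

open Pool.Agent.NH65.SN

lemma norm_sq_eq (e : ℍ) : ‖(e : ℂ)‖ ^ 2 = e.re ^ 2 + e.im ^ 2 := by
  rw [← Complex.normSq_eq_norm_sq, Complex.normSq_apply]
  simp only [UpperHalfPlane.coe_re, UpperHalfPlane.coe_im]
  ring

lemma key (A B C D : ℤ) (e : ℍ) (hD : B ^ 2 - 4 * A * C = D) (h : OnForm A B C e) :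
    (2 * (A : ℝ) * e.re + B) ^ 2 + (2 * (A : ℝ) * e.im) ^ 2 = D := by
  unfold OnForm at h
  rw [norm_sq_eq] at h
  have hD' : (B : ℝ) ^ 2 - 4 * A * C = D := by exact_mod_cast hD
  have : (2 * (A : ℝ) * e.re + B) ^ 2 + (2 * (A : ℝ) * e.im) ^ 2 =
      4 * A * ((A : ℝ) * (e.re ^ 2 + e.im ^ 2) + B * e.re + C) + (B ^ 2 - 4 * A * C) := by ring
  rw [this, h, hD']; ring

lemma re_le (e : ℍ) : |e.re| ≤ ‖(e : ℂ)‖ := Complex.abs_re_le_norm (e : ℂ)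

lemma bounds (A B C D : ℤ) (e : ℍ) (hD : B ^ 2 - 4 * A * C = D) (h : OnForm A B C e)
    {y0 R : ℝ} (hy0 : 0 < y0) (hy : y0 ≤ e.im) (hR : ‖(e : ℂ)‖ ≤ R) :
    |(A : ℝ)| ≤ (|(D : ℝ)| + 1) / (2 * y0) ∧
    |(B : ℝ)| ≤ (|(D : ℝ)| + 1) + 2 * ((|(D : ℝ)| + 1) / (2 * y0)) * R ∧
    |(C : ℝ)| ≤ ((|(D : ℝ)| + 1) / (2 * y0)) * R ^ 2 +
      ((|(D : ℝ)| + 1) + 2 * ((|(D : ℝ)| + 1) / (2 * y0)) * R) * R := by
  have hk := key A B C D e hD h
  set S : ℝ := |(D : ℝ)| + 1 with hS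
  have hS1 : 1 ≤ S := by rw [hS]; linarith [abs_nonneg (D : ℝ)]
  have hDS : (D : ℝ) ≤ S ^ 2 := by
    have h1 : (D : ℝ) ≤ S := by rw [hS]; linarith [le_abs_self (D : ℝ)]
    nlinarith
  have hR0 : 0 ≤ R := (norm_nonneg _).trans hR
  have h1 : |2 * (A : ℝ) * e.re + B| ≤ S :=
    abs_le_of_sq_le_sq (by nlinarith [sq_nonneg (2 * (A : ℝ) * e.im)]) (by linarith)
  have h2 : |2 * (A : ℝ) * e.im| ≤ S :=
    abs_le_of_sq_le_sq (by nlinarith [sq_nonneg (2 * (A : ℝ) * e.re + B)]) (by linarith)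
  have hA : |(A : ℝ)| ≤ S / (2 * y0) := by
    rw [le_div_iff₀ (by positivity)]
    rw [abs_mul, abs_mul, abs_of_pos (by norm_num : (0:ℝ) < 2), abs_of_pos (hy0.trans_le hy)] at h2
    nlinarith [mul_le_mul_of_nonneg_left hy (abs_nonneg (A : ℝ))]
  have hx : |e.re| ≤ R := (re_le e).trans hR
  have hB : |(B : ℝ)| ≤ S + 2 * (S / (2 * y0)) * R := by
    have e1 : (B : ℝ) = (2 * (A : ℝ) * e.re + B) - 2 * ((A : ℝ) * e.re) := by ring
    rw [e1]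
    refine (abs_sub _ _).trans ?_
    have e2 : |2 * ((A : ℝ) * e.re)| ≤ 2 * (S / (2 * y0)) * R := by
      rw [abs_mul, abs_mul, abs_of_pos (by norm_num : (0:ℝ) < 2), mul_assoc]
      exact mul_le_mul_of_nonneg_left (mul_le_mul hA hx (abs_nonneg _) (by positivity)) (by norm_num)
    linarith
  refine ⟨hA, hB, ?_⟩
  have e3 : (C : ℝ) = -((A : ℝ) * ‖(e : ℂ)‖ ^ 2 + B * e.re) := by
    unfold OnForm at h; linarith
  rw [e3, abs_neg]
  refine (abs_add_le _ _).trans ?_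
  apply add_le_add
  · rw [abs_mul, abs_of_nonneg (sq_nonneg ‖(e : ℂ)‖)]
    exact mul_le_mul hA (pow_le_pow_left₀ (norm_nonneg _) hR 2) (by positivity) (by positivity)
  · rw [abs_mul]
    exact mul_le_mul hB hx (abs_nonneg _) (by positivity)

lemma mem_Icc_of {A : ℤ} {a : ℝ} {M : ℕ} (h : |(A : ℝ)| ≤ a) (hM : a ≤ M) :
    A ∈ Set.Icc (-(M : ℤ)) M := by
  have h1 := abs_le.1 (h.trans hM)
  constructor
  · have := h1.1
    exact_mod_cast this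
  · have := h1.2
    exact_mod_cast this

theorem fin1 (D : ℤ) (K : Set ℍ) (hK : IsCompact K) :
    {t : ℤ × ℤ × ℤ | t.2.1 ^ 2 - 4 * t.1 * t.2.2 = D ∧
      ∃ e ∈ K, OnForm t.1 t.2.1 t.2.2 e}.Finite := by
  rcases K.eq_empty_or_nonempty with hE | hne
  · subst hE
    refine Set.finite_empty.subset ?_
    rintro t ⟨_, e, he, _⟩
    exact he
  · obtain ⟨e0, he0, hmin⟩ := hK.exists_isMinOn hne UpperHalfPlane.continuous_im.continuousOn
    have hcn : Continuous fun e : ℍ => ‖(e : ℂ)‖ := UpperHalfPlane.continuous_coe.norm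
    obtain ⟨e1, he1, hmax⟩ := hK.exists_isMaxOn hne hcn.continuousOn
    have hy0 : 0 < e0.im := e0.im_pos
    set y0 := e0.im with hy0d
    set R := ‖(e1 : ℂ)‖ with hR
    set a := (|(D : ℝ)| + 1) / (2 * y0) with ha
    set b := (|(D : ℝ)| + 1) + 2 * a * R with hb
    set c := a * R ^ 2 + b * R with hc
    have hR0 : 0 ≤ R := norm_nonneg _
    have ha0 : 0 ≤ a := by positivity
    have hb0 : 0 ≤ b := by positivity
    have hc0 : 0 ≤ c := by positivity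
    set M : ℕ := ⌈a + b + c⌉₊ with hM
    have hM' : a + b + c ≤ M := Nat.le_ceil _
    refine ((Set.finite_Icc (-(M : ℤ)) M).prod ((Set.finite_Icc (-(M : ℤ)) M).prod
      (Set.finite_Icc (-(M : ℤ)) M))).subset ?_
    rintro ⟨A, B, C⟩ ⟨hD, e, he, hon⟩
    obtain ⟨h1, h2, h3⟩ := bounds A B C D e hD hon hy0 (hmin he) (hmax he)
    exact ⟨mem_Icc_of h1 (by linarith), mem_Icc_of h2 (by linarith), mem_Icc_of h3 (by linarith)⟩

lemma closed_form (t : ℤ × ℤ × ℤ) : IsClosed {e : ℍ | OnForm t.1 t.2.1 t.2.2 e} := by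
  have hcn : Continuous fun e : ℍ => ‖(e : ℂ)‖ := UpperHalfPlane.continuous_coe.norm
  have h1 : Continuous fun e : ℍ => (t.1 : ℝ) * ‖(e : ℂ)‖ ^ 2 + t.2.1 * e.re + t.2.2 := by
    have := UpperHalfPlane.continuous_re
    fun_prop
  exact isClosed_eq h1 continuous_const

theorem fin2 (D : ℤ) (w : ℍ) (hw : ¬ Geo D w) :
    ∃ η : ℝ, 0 < η ∧ ∀ e : ℍ, Geo D e → η ≤ dist w e := by
  have hK : IsCompact (Metric.closedBall w 1) := isCompact_closedBall w 1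
  have hF := fin1 D _ hK
  set F := {t : ℤ × ℤ × ℤ | t.2.1 ^ 2 - 4 * t.1 * t.2.2 = D ∧
      ∃ e ∈ Metric.closedBall w 1, OnForm t.1 t.2.1 t.2.2 e} with hFd
  have hcl : IsClosed (⋃ t ∈ F, {e : ℍ | OnForm t.1 t.2.1 t.2.2 e}) :=
    hF.isClosed_biUnion fun t _ => closed_form t
  have hwn : w ∈ (⋃ t ∈ F, {e : ℍ | OnForm t.1 t.2.1 t.2.2 e})ᶜ := by
    intro hmem
    rw [Set.mem_iUnion₂] at hmem
    obtain ⟨t, ht, hto⟩ := hmem
    exact hw ⟨t.1, t.2.1, t.2.2, ht.1, hto⟩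
  obtain ⟨η, hη, hball⟩ := Metric.isOpen_iff.1 hcl.isOpen_compl w hwn
  refine ⟨min η 1, lt_min hη one_pos, ?_⟩
  rintro e ⟨A, B, C, hD, hon⟩
  by_contra hlt
  push Not at hlt
  have h1 : dist e w < η := by rw [dist_comm]; exact hlt.trans_le (min_le_left _ _)
  have h2 : dist e w ≤ 1 := by rw [dist_comm]; exact (hlt.trans_le (min_le_right _ _)).le
  have h3 := hball (Metric.mem_ball.2 h1)
  apply h3
  rw [Set.mem_iUnion₂]
  exact ⟨(A, B, C), ⟨hD, e, Metric.mem_closedBall.2 h2, hon⟩, hon⟩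

theorem s_fin : S_FIN := ⟨fin1, fin2⟩

end Pool.Agent.NH65.SN.Fin
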