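import Pool.Agent.NH65.SN.Defs

set_option autoImplicit false
open Pool.Agent.NH65.SN
open scoped UpperHalfPlane MatrixGroups

namespace Pool.Agent.NH65.SN.HPT

lemma mem_hk {n : ℕ} {x : ℕ × ℕ} : x ∈ hk n ↔ x.1 ∣ n ∧ n ≠ 0 ∧ x.2 < x.1 := by
  unfold hk
  simp only [Finset.mem_filter, Finset.mem_product, Nat.mem_divisors, Finset.mem_range]
  constructor
  · rintro ⟨⟨⟨h1, h2⟩, h3⟩, h4⟩
    exact ⟨h1, h2, h4⟩
  · rintro ⟨h1, h2, h4⟩
    refine ⟨⟨⟨h1, h2⟩, ?_⟩, h4⟩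
    exact lt_of_lt_of_le h4 (Nat.le_of_dvd (Nat.pos_of_ne_zero h2) h1)

lemma im_pt (n : ℕ) (x : ℕ × ℕ) (z : ℂ) :
    (pt n x z).im = ((n / x.1 : ℕ) : ℝ) * z.im / (x.1 : ℝ) := by
  unfold pt
  rw [show ((x.1 : ℂ)) = (((x.1 : ℝ)) : ℂ) by norm_cast, Complex.div_ofReal_im]
  simp

lemma im_pos {n : ℕ} {x : ℕ × ℕ} (hx : x ∈ hk n) {z : ℂ} (hz : 0 < z.im) :
    0 < (pt n x z).im := by
  obtain ⟨h1, h2, h3⟩ := mem_hk.mp hx
  have hx1 : 0 < x.1 := by omega
  have hq : 0 < n / x.1 := Nat.div_pos (Nat.le_of_dvd (Nat.pos_of_ne_zero h2) h1) hx1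
  rw [im_pt]
  have a1 : (0 : ℝ) < ((n / x.1 : ℕ) : ℝ) := by exact_mod_cast hq
  have a2 : (0 : ℝ) < (x.1 : ℝ) := by exact_mod_cast hx1
  positivity

lemma coe_ptH {n : ℕ} {x : ℕ × ℕ} (hx : x ∈ hk n) (z : ℍ) : ((ptH n x z : ℍ) : ℂ) = pt n x z := by
  unfold ptH
  rw [dif_pos (im_pos hx z.im_pos)]
  
lemma mem_hk_prime {p : ℕ} (hp : p.Prime) (x : ℕ × ℕ) :
    x ∈ hk p ↔ (x = (1, 0) ∨ (x.1 = p ∧ x.2 < p)) := by
  rw [mem_hk, Nat.dvd_prime hp]
  obtain ⟨d, b⟩ := x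
  simp only [Prod.mk.injEq]
  constructor
  · rintro ⟨h1 | h1, h2, h3⟩
    · left; omega
    · right; subst h1; exact ⟨rfl, h3⟩
  · rintro (⟨h1, h2⟩ | ⟨h1, h2⟩)
    · subst h1; subst h2; exact ⟨Or.inl rfl, hp.ne_zero, by norm_num⟩
    · subst h1; exact ⟨Or.inr rfl, hp.ne_zero, h2⟩

lemma mem_prim {p : ℕ} (hp : p.Prime) (x : ℕ × ℕ) :
    x ∈ prim p ↔ (x = (1, 0) ∨ (x.1 = p ∧ 0 < x.2 ∧ x.2 < p) ∨ (x.1 = p ^ 2 ∧ x.2 < p ^ 2)) := by
  unfold prim
  rw [Finset.mem_erase, mem_hk, Nat.dvd_prime_pow hp]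
  obtain ⟨d, b⟩ := x
  have hp2 : 2 ≤ p := hp.two_le
  have hsq : p < p ^ 2 := by nlinarith
  simp only [Prod.mk.injEq, ne_eq]
  constructor
  · rintro ⟨h0, ⟨k, hk, hd⟩, h2, h3⟩
    interval_cases k
    · left; simp at hd; omega
    · right; left
      simp at hd
      refine ⟨hd, ?_, by omega⟩
      rcases Nat.eq_zero_or_pos b with hb | hb
      · exact absurd ⟨hd, hb⟩ h0
      · exact hb
    · right; right
      exact ⟨hd, by omega⟩
  · rintro (⟨h1, h2⟩ | ⟨h1, h2, h3⟩ | ⟨h1, h2⟩)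
    · subst h1; subst h2
      exact ⟨by omega, ⟨0, by norm_num, by simp⟩, by positivity, by norm_num⟩
    · subst h1
      exact ⟨by omega, ⟨1, by norm_num, by simp⟩, by positivity, h3⟩
    · exact ⟨by omega, ⟨2, le_refl _, h1⟩, by positivity, by omega⟩

lemma card_hk {p : ℕ} (hp : p.Prime) : (hk p).card = p + 1 := by
  have h : hk p = insert (1, 0) ((Finset.range p).image (fun b => (p, b))) := by
    ext x
    rw [mem_hk_prime hp, Finset.mem_insert, Finset.mem_image]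
    obtain ⟨d, b⟩ := x
    simp only [Finset.mem_range, Prod.mk.injEq]
    constructor
    · rintro (h | ⟨h1, h2⟩)
      · exact Or.inl h
      · exact Or.inr ⟨b, h2, h1.symm, rfl⟩
    · rintro (h | ⟨b', h1, h2, h3⟩)
      · exact Or.inl h
      · exact Or.inr ⟨h2.symm, by omega⟩
  rw [h, Finset.card_insert_of_notMem, Finset.card_image_of_injective, Finset.card_range]
  · intro a b hab
    simpa using hab
  · simp only [Finset.mem_image, Finset.mem_range, Prod.mk.injEq, not_exists, not_and]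
    intro b _ h1
    exact absurd h1 hp.one_lt.ne'

lemma card_prim {p : ℕ} (hp : p.Prime) : (prim p).card = p ^ 2 + p := by
  have hp2 : 2 ≤ p := hp.two_le
  have hsq : p < p ^ 2 := by nlinarith
  have h : prim p = insert (1, 0) (((Finset.Ico 1 p).image (fun b => (p, b))) ∪
      ((Finset.range (p ^ 2)).image (fun b => (p ^ 2, b)))) := by
    ext x
    rw [mem_prim hp, Finset.mem_insert, Finset.mem_union, Finset.mem_image, Finset.mem_image]
    obtain ⟨d, b⟩ := x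
    simp only [Finset.mem_range, Prod.mk.injEq, Finset.mem_Ico]
    constructor
    · rintro (h | ⟨h1, h2, h3⟩ | ⟨h1, h2⟩)
      · exact Or.inl h
      · exact Or.inr (Or.inl ⟨b, ⟨h2, h3⟩, h1.symm, rfl⟩)
      · exact Or.inr (Or.inr ⟨b, h2, h1.symm, rfl⟩)
    · rintro (h | ⟨b', ⟨h1, h1'⟩, h2, h3⟩ | ⟨b', h1, h2, h3⟩)
      · exact Or.inl h
      · exact Or.inr (Or.inl ⟨h2.symm, by omega, by omega⟩)
      · exact Or.inr (Or.inr ⟨h2.symm, by omega⟩)
  rw [h, Finset.card_insert_of_notMem, Finset.card_union_of_disjoint,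
    Finset.card_image_of_injective, Finset.card_image_of_injective, Finset.card_range,
    Nat.card_Ico]
  · omega
  · intro a b hab
    simpa using hab
  · intro a b hab
    simpa using hab
  · rw [Finset.disjoint_left]
    simp only [Finset.mem_image, Finset.mem_range, Finset.mem_Ico, not_exists, not_and]
    rintro ⟨d, b⟩ ⟨b', hb', h1⟩ b'' hb'' h2
    simp only [Prod.mk.injEq] at h1 h2
    omega
  · simp only [Finset.mem_union, Finset.mem_image, Finset.mem_range, Finset.mem_Ico,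
      Prod.mk.injEq, not_or, not_exists, not_and]
    constructor
    · intro b _ h1
      omega
    · intro b _ h1
      omega

lemma cont_ptH {n : ℕ} {x : ℕ × ℕ} (hx : x ∈ hk n) : Continuous (ptH n x) := by
  rw [UpperHalfPlane.isOpenEmbedding_coe.isInducing.continuous_iff]
  have h : ((fun z : ℍ => (z : ℂ)) ∘ ptH n x) = fun z : ℍ => pt n x (z : ℂ) := by
    funext z
    exact coe_ptH hx z
  have h2 : Continuous (fun z : ℍ => pt n x (z : ℂ)) := by
    unfold pt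
    have := UpperHalfPlane.continuous_coe
    fun_prop
  rw [← h] at h2
  exact h2

theorem s_hpt : S_HPT :=
  ⟨fun _ _ hx z => coe_ptH hx z, fun _ hp x => mem_hk_prime hp x, fun _ hp x => mem_prim hp x,
    fun _ hp => ⟨card_hk hp, card_prim hp⟩, fun _ _ hx => cont_ptH hx⟩

end Pool.Agent.NH65.SN.HPT
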