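import Pool.Agent.NH65.SN.Defs

set_option autoImplicit false
open Pool.Agent.NH65.SN
open scoped UpperHalfPlane MatrixGroups Modular

namespace Pool.Agent.NH65.SN.HT

/-- the image of a closed geodesic of discriminant `D` under `SL_2(Z)` is one -/
lemma geo_smul {D : ℤ} {e : ℍ} (he : Geo D e) (g : SL(2, ℤ)) : Geo D (g • e) := by
  obtain ⟨A, B, C, hD, hF⟩ := he
  obtain ⟨a, b, c, d, ha, hb, hc, hd⟩ : ∃ a b c d : ℤ, g 0 0 = a ∧ g 0 1 = b ∧ g 1 0 = c ∧
    g 1 1 = d := ⟨_, _, _, _, rfl, rfl, rfl, rfl⟩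
  have hdet : a * d - b * c = 1 := by
    have := Matrix.SpecialLinearGroup.det_coe g
    rw [Matrix.det_fin_two] at this
    rw [← ha, ← hb, ← hc, ← hd]
    exact this
  have hdetR : (a : ℝ) * d - b * c = 1 := by exact_mod_cast hdet
  have hw : ((g • e : ℍ) : ℂ) * ((c : ℂ) * (e : ℂ) + d) = (a : ℂ) * (e : ℂ) + b := by
    have h0 := UpperHalfPlane.coe_specialLinearGroup_apply g e
    simp only [ha, hb, hc, hd] at h0
    have hne : ((c : ℂ) * (e : ℂ) + d) ≠ 0 := by
      intro h
      have him := congrArg Complex.im h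
      have hre := congrArg Complex.re h
      simp at him hre
      rcases him with h1 | h1
      · subst h1
        simp at hre
        rw [hre] at hdet
        simp at hdet
      · exact e.im_ne_zero h1
    rw [h0]
    simp only [eq_intCast]
    push_cast
    rw [div_mul_cancel₀]
    exact_mod_cast hne
  set w : ℍ := g • e with hwdef
  have h1 : w.re * (c * e.re + d) - w.im * (c * e.im) = a * e.re + b := by
    have := congrArg Complex.re hw
    simpa using this
  have h2 : w.re * (c * e.im) + w.im * (c * e.re + d) = a * e.im := by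
    have := congrArg Complex.im hw
    simpa using this
  have hn : 0 < ((c : ℝ) * e.re + d) ^ 2 + (c * e.im) ^ 2 := by
    by_contra hcon
    have h3 : ((c : ℝ) * e.re + d) ^ 2 + (c * e.im) ^ 2 = 0 :=
      le_antisymm (not_lt.mp hcon) (by positivity)
    have h4 : ((c : ℝ) * e.im) = 0 := by nlinarith [sq_nonneg ((c : ℝ) * e.re + d), sq_nonneg ((c : ℝ) * e.im)]
    have h5 : (c : ℝ) = 0 := by
      rcases mul_eq_zero.mp h4 with h | h
      · exact h
      · exact absurd h e.im_ne_zero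
    have h6 : (d : ℝ) = 0 := by
      rw [h5] at h3
      nlinarith
    rw [h5, h6] at hdetR
    norm_num at hdetR
  refine ⟨A * d ^ 2 - B * c * d + C * c ^ 2, -2 * A * b * d + B * (a * d + b * c) - 2 * C * a * c,
    A * b ^ 2 - B * a * b + C * a ^ 2, ?_, ?_⟩
  · have : (B ^ 2 - 4 * A * C) * (a * d - b * c) ^ 2 = D := by rw [hD, hdet]; ring
    rw [← this]; ring
  · unfold OnForm at hF ⊢
    have hns : ∀ z : ℍ, ‖(z : ℂ)‖ ^ 2 = z.re ^ 2 + z.im ^ 2 := by
      intro z
      rw [← Complex.normSq_eq_norm_sq, Complex.normSq_apply]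
      simp [pow_two]
    rw [hns] at hF ⊢
    have hF' : (A : ℝ) * (e.re ^ 2 + e.im ^ 2) + B * e.re + C = 0 := hF
    have key : (((c : ℝ) * e.re + d) ^ 2 + (c * e.im) ^ 2) *
        (((A * d ^ 2 - B * c * d + C * c ^ 2 : ℤ) : ℝ) * (w.re ^ 2 + w.im ^ 2) +
          ((-2 * A * b * d + B * (a * d + b * c) - 2 * C * a * c : ℤ) : ℝ) * w.re +
          ((A * b ^ 2 - B * a * b + C * a ^ 2 : ℤ) : ℝ)) = 0 := by
      push_cast
      have hnu : (((c : ℝ) * e.re + d) ^ 2 + (c * e.im) ^ 2) * w.re =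
          (a * e.re + b) * (c * e.re + d) + a * c * e.im ^ 2 := by
        linear_combination (c * e.re + d) * h1 + (c * e.im) * h2
      have hn2 : (((c : ℝ) * e.re + d) ^ 2 + (c * e.im) ^ 2) * (w.re ^ 2 + w.im ^ 2) =
          (a * e.re + b) ^ 2 + a ^ 2 * e.im ^ 2 := by
        rw [show (a : ℝ) ^ 2 * e.im ^ 2 = (a * e.im) ^ 2 by ring, ← h1, ← h2]
        ring
      linear_combination (A * d ^ 2 - B * c * d + C * c ^ 2 : ℝ) * hn2 +
        (-2 * A * b * d + B * (a * d + b * c) - 2 * C * a * c : ℝ) * hnu +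
        ((a : ℝ) * d - b * c) ^ 2 * hF'
    rcases mul_eq_zero.mp key with h | h
    · exact absurd h hn.ne'
    · exact h

/-- a point on a closed geodesic of nonsquare discriminant `D` has height at most `√D / 2` -/
lemma im_le_of_geo {D : ℤ} (_hD : 0 < D) (hsq : ¬ IsSquare D) {e : ℍ} (he : Geo D e) :
    e.im ≤ Real.sqrt D / 2 := by
  obtain ⟨A, B, C, hD, hF⟩ := he
  have hA : A ≠ 0 := by
    intro h
    apply hsq
    rw [← hD, h]
    exact ⟨B, by ring⟩
  have hA1 : (1 : ℝ) ≤ (A : ℝ) ^ 2 := by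
    have : (1 : ℤ) ≤ A ^ 2 := by
      have := sq_abs A
      have h1 : 1 ≤ |A| := Int.one_le_abs hA
      nlinarith
    exact_mod_cast this
  have hns : ‖(e : ℂ)‖ ^ 2 = e.re ^ 2 + e.im ^ 2 := by
    rw [← Complex.normSq_eq_norm_sq, Complex.normSq_apply]
    simp [pow_two]
  unfold OnForm at hF
  rw [hns] at hF
  have hDR : (B : ℝ) ^ 2 - 4 * A * C = D := by exact_mod_cast hD
  have h4 : 4 * (A : ℝ) ^ 2 * e.im ^ 2 = D - (2 * A * e.re + B) ^ 2 := by
    linear_combination 4 * (A : ℝ) * hF + hDR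
  have h5 : (2 * e.im) ^ 2 ≤ (D : ℝ) := by
    nlinarith [sq_nonneg (2 * (A : ℝ) * e.re + B), sq_nonneg e.im]
  have h6 := Real.le_sqrt_of_sq_le h5
  linarith

theorem s_ht (h : S_ORB) : S_HT := by
  intro D hD hsq e w he hwe
  obtain ⟨g, hg1, hg2⟩ := ModularGroup.exists_smul_mem_fd w
  refine ⟨g, hg2, ?_, ?_⟩
  · have hns : Complex.normSq ((g • w : ℍ) : ℂ) = (g • w).re ^ 2 + (g • w).im ^ 2 := by
      rw [Complex.normSq_apply]
      simp [pow_two]
    rw [hns] at hg1
    have hpos := (g • w).im_pos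
    have h1 : (g • w).re ^ 2 ≤ 1 / 4 := by
      have := abs_le.mp hg2
      nlinarith [this.1, this.2]
    by_contra hcon
    push Not at hcon
    nlinarith
  · have h1 := UpperHalfPlane.im_le_im_mul_exp_dist (g • w) (g • e)
    rw [h.1 g w e] at h1
    have h2 : Real.exp (dist w e) ≤ Real.exp 1 := Real.exp_le_exp.mpr hwe
    have h3 := Real.exp_one_lt_d9
    have h4 := im_le_of_geo hD hsq (geo_smul he g)
    have h5 := (g • e).im_pos
    have h6 := Real.sqrt_nonneg (D : ℝ)
    have h7 := Real.exp_pos (dist w e)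
    calc (g • w).im ≤ (g • e).im * Real.exp (dist w e) := h1
      _ ≤ (Real.sqrt D / 2) * 4 := by
        apply mul_le_mul h4 (by linarith) h7.le (by positivity)
      _ = 2 * Real.sqrt D := by ring

end Pool.Agent.NH65.SN.HT
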