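import Pool.Agent.NH65.SN.Defs

set_option autoImplicit false
open Pool.Agent.NH65.SN MeasureTheory

namespace Pool.Agent.NH65.SN.Hecke

lemma sum_hk {n : ℕ} (hn : 0 < n) (f : ℕ × ℕ → ℂ) :
    ∑ x ∈ hk n, f x = ∑ d ∈ n.divisors, ∑ b ∈ Finset.range d, f (d, b) := by
  unfold hk
  rw [Finset.sum_filter, Finset.sum_product]
  refine Finset.sum_congr rfl fun d hd => ?_
  rw [← Finset.sum_filter]
  refine Finset.sum_congr ?_ fun _ _ => rfl
  ext b
  have hdn : d ≤ n := Nat.le_of_dvd hn (Nat.dvd_of_mem_divisors hd)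
  simp only [Finset.mem_filter, Finset.mem_range]
  omega

lemma sum_range_sq (p : ℕ) (hp : 0 < p) (f : ℕ → ℂ) :
    ∑ b ∈ Finset.range p, ∑ b' ∈ Finset.range p, f (b + p * b') =
      ∑ k ∈ Finset.range (p ^ 2), f k := by
  rw [← Finset.sum_product']
  refine Finset.sum_nbij' (fun x : ℕ × ℕ => x.1 + p * x.2) (fun k => (k % p, k / p))
    ?_ ?_ ?_ ?_ ?_
  · rintro ⟨b, b'⟩ h
    simp only [Finset.mem_product, Finset.mem_range] at h ⊢
    nlinarith [h.1, h.2]
  · intro k hk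
    simp only [Finset.mem_product, Finset.mem_range] at hk ⊢
    refine ⟨Nat.mod_lt _ hp, ?_⟩
    rw [Nat.div_lt_iff_lt_mul hp]
    nlinarith
  · rintro ⟨b, b'⟩ h
    simp only [Finset.mem_product, Finset.mem_range] at h
    simp only [Prod.mk.injEq]
    constructor
    · rw [Nat.add_mul_mod_self_left, Nat.mod_eq_of_lt h.1]
    · rw [Nat.add_mul_div_left _ _ hp, Nat.div_eq_of_lt h.1, zero_add]
  · intro k _
    exact Nat.mod_add_div k p
  · rintro ⟨b, b'⟩ _
    rfl

lemma im_div {w : ℂ} (hw : 0 < w.im) {p : ℕ} (hp : 0 < p) (b : ℕ) :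
    0 < ((w + (b : ℂ)) / (p : ℂ)).im := by
  rw [show (p : ℂ) = ((p : ℝ) : ℂ) by norm_num, Complex.div_ofReal_im]
  have hp' : (0 : ℝ) < p := by exact_mod_cast hp
  simp only [Complex.add_im, Complex.natCast_im, add_zero]
  positivity

lemma im_mul {w : ℂ} (hw : 0 < w.im) {p : ℕ} (hp : 0 < p) :
    0 < ((p : ℂ) * w).im := by
  have hp' : (0 : ℝ) < p := by exact_mod_cast hp
  simp only [Complex.mul_im, Complex.natCast_re, Complex.natCast_im, zero_mul, add_zero]
  positivity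

theorem s_hecke : S_HECKE := by
  intro U T hU p hp
  obtain ⟨-, hinv, -, -, hnorm, hH⟩ := hU
  have hp0 : 0 < p := hp.pos
  have hpc : (p : ℂ) ≠ 0 := by exact_mod_cast hp.ne_zero
  obtain ⟨c, hc⟩ := hH p hp.one_le
  obtain ⟨c', hc'⟩ := hH (p ^ 2) (Nat.one_le_iff_ne_zero.mpr (pow_ne_zero _ hp.ne_zero))
  -- periodicity
  have hper : ∀ w : ℂ, 0 < w.im → ∀ b : ℕ, U (w + b) = U w := by
    intro w hw b
    induction b with
    | zero => simp
    | succ k ih =>
      have h1 : 0 < (w + (k : ℂ)).im := by simpa using hw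
      have := (hinv _ h1).1
      rw [show w + ((k + 1 : ℕ) : ℂ) = w + (k : ℂ) + 1 by push_cast; ring, this, ih]
  -- the form is not identically zero
  obtain ⟨z₁, hz₁, hz₁U⟩ : ∃ z : ℂ, 0 < z.im ∧ U z ≠ 0 := by
    by_contra hcon
    push Not at hcon
    have h0 : (∫ z in {z : ℂ | 0 < z.im ∧ |z.re| ≤ 1 / 2 ∧ 1 ≤ ‖z‖}, ‖U z‖ ^ 2 / z.im ^ 2) = 0 := by
      refine setIntegral_eq_zero_of_forall_eq_zero fun z hz => ?_
      rw [hcon z hz.1]
      simp
    rw [h0] at hnorm
    exact zero_ne_one hnorm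
  -- the Hecke operator at p
  have hV : ∀ w : ℂ, 0 < w.im →
      U ((p : ℂ) * w) + ∑ b ∈ Finset.range p, U ((w + (b : ℂ)) / (p : ℂ)) = c * U w := by
    intro w hw
    have h := hc w hw
    rw [Nat.Prime.divisors hp, Finset.sum_pair hp.one_lt.ne] at h
    simp only [Finset.sum_range_one, Nat.div_one, Nat.cast_zero, add_zero, Nat.cast_one,
      div_one, Nat.div_self hp0, one_mul] at h
    exact h
  have hV2 : ∀ w : ℂ, 0 < w.im →
      U ((p : ℂ) * ((p : ℂ) * w)) + (∑ b ∈ Finset.range p, U (((p : ℂ) * w + (b : ℂ)) / (p : ℂ)) +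
        ∑ b ∈ Finset.range (p ^ 2), U ((w + (b : ℂ)) / ((p : ℂ) ^ 2))) = c' * U w := by
    intro w hw
    have h := hc' w hw
    rw [Nat.sum_divisors_prime_pow hp] at h
    simp only [Finset.sum_range_succ _ 2, Finset.sum_range_succ _ 1, Finset.sum_range_one,
      pow_zero, pow_one, Nat.div_one, Nat.cast_zero, add_zero, Nat.cast_one, div_one,
      Nat.div_self (pow_pos hp0 2), one_mul] at h
    rw [show p ^ 2 / p = p by rw [pow_two, Nat.mul_div_cancel_left _ hp0]] at h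
    rw [← h]
    push_cast
    rw [show (p : ℂ) * ((p : ℂ) * w) = (p : ℂ) ^ 2 * w by ring]
    ring
  -- the relation
  have hrel : ∀ z : ℂ, 0 < z.im → c ^ 2 * U z = c' * U z + p * U z := by
    intro z hz
    have e1 : c ^ 2 * U z = c * U ((p : ℂ) * z) +
        ∑ b ∈ Finset.range p, c * U ((z + (b : ℂ)) / (p : ℂ)) := by
      rw [← Finset.mul_sum, ← mul_add, hV z hz]
      ring
    have e2 : ∀ b ∈ Finset.range p, c * U ((z + (b : ℂ)) / (p : ℂ)) =
        U z + ∑ b' ∈ Finset.range p, U ((z + ((b + p * b' : ℕ) : ℂ)) / ((p : ℂ) ^ 2)) := by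
      intro b _
      rw [← hV _ (im_div hz hp0 b)]
      congr 1
      · rw [show (p : ℂ) * ((z + (b : ℂ)) / (p : ℂ)) = z + b by field_simp]
        exact hper z hz b
      · refine Finset.sum_congr rfl fun b' _ => ?_
        congr 1
        push_cast
        field_simp
        try ring
    rw [e1, Finset.sum_congr rfl e2, Finset.sum_add_distrib,
      sum_range_sq p hp0 (fun k => U ((z + (k : ℂ)) / ((p : ℂ) ^ 2))), ← hV _ (im_mul hz hp0),
      ← hV2 z hz]
    simp only [Finset.sum_const, Finset.card_range, nsmul_eq_mul]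
    ring
  have hcc : c ^ 2 = c' + p := by
    have h := hrel z₁ hz₁
    rw [← add_mul] at h
    exact mul_right_cancel₀ hz₁U h
  refine ⟨c, c' - 1, by rw [hcc]; ring, fun z hz => ⟨?_, ?_⟩⟩
  · rw [sum_hk hp0, ← hc z hz]
    rfl
  · have hmem : (p, 0) ∈ hk (p ^ 2) := by
      unfold hk
      simp only [Finset.mem_filter, Finset.mem_product, Nat.mem_divisors, Finset.mem_range]
      exact ⟨⟨⟨dvd_pow_self p two_ne_zero, pow_ne_zero _ hp.ne_zero⟩, pow_pos hp0 2⟩, hp0⟩
    have h1 : ∑ x ∈ hk (p ^ 2), U (pt (p ^ 2) x z) = c' * U z := by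
      rw [sum_hk (pow_pos hp0 2), ← hc' z hz]
      rfl
    have h2 := Finset.add_sum_erase (hk (p ^ 2)) (fun x => U (pt (p ^ 2) x z)) hmem
    have h3 : pt (p ^ 2) (p, 0) z = z := by
      unfold pt
      simp only
      rw [show p ^ 2 / p = p by rw [pow_two, Nat.mul_div_cancel_left _ hp0]]
      rw [Nat.cast_zero, add_zero, mul_div_cancel_left₀ _ hpc]
    unfold prim
    rw [h3, h1] at h2
    linear_combination h2

end Pool.Agent.NH65.SN.Hecke
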