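import Pool.Agent.NH65.SN.Defs

set_option autoImplicit false
open Pool.Agent.NH65.SN
open scoped UpperHalfPlane MatrixGroups

namespace Pool.Agent.NH65.SN.Inv

lemma invariance {U : ℂ → ℂ} (hinv : ∀ z : ℂ, 0 < z.im → U (z + 1) = U z ∧ U (-z⁻¹) = U z)
    (g : SL(2, ℤ)) : ∀ z : ℍ, U ((g • z : ℍ) : ℂ) = U (z : ℂ) := by
  have hg : g ∈ Subgroup.closure {ModularGroup.S, ModularGroup.T} := by
    rw [_root_.SpecialLinearGroup.SL2Z_generators]; trivial
  induction hg using Subgroup.closure_induction with
  | mem x hx =>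
    intro z
    rcases hx with rfl | rfl
    · rw [UpperHalfPlane.modular_S_smul]
      have := (hinv (z : ℂ) z.im_pos).2
      simpa [inv_neg] using this
    · rw [UpperHalfPlane.modular_T_smul, UpperHalfPlane.coe_vadd]
      have := (hinv (z : ℂ) z.im_pos).1
      rw [← this]
      congr 1
      push_cast
      ring
  | one => intro z; rw [one_smul]
  | mul x y _ _ hx hy => intro z; rw [mul_smul, hx, hy]
  | inv x _ hx =>
    intro z
    have := hx (x⁻¹ • z)
    rw [smul_inv_smul] at this
    exact this.symm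

theorem s_inv : S_INV := by
  intro U T hU
  refine ⟨fun g z => invariance hU.2.1 g z, ?_⟩
  exact hU.1.continuousOn.comp_continuous UpperHalfPlane.continuous_coe (fun z => z.im_pos)

end Pool.Agent.NH65.SN.Inv
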