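import Pool.Agent.NH65.SN.Defs

set_option autoImplicit false

/-!
# SN-12 LOCAL
-/

open Filter Topology
open scoped UpperHalfPlane MatrixGroups

namespace Pool.Agent.NH65.SN.Local

open Pool.Agent.NH65.SN

lemma ev {Q : ℝ → Prop} (anti : ∀ a b : ℝ, a ≤ b → Q b → Q a) (h : ∃ η : ℝ, 0 < η ∧ Q η) :
    ∀ᶠ η in 𝓝[>] (0 : ℝ), Q η := by
  obtain ⟨η, hη, hQ⟩ := h
  filter_upwards [Ioo_mem_nhdsGT hη] with x hx using anti _ _ hx.2.le hQ

lemma near {f : ℍ → ℍ} (hf : Continuous f) (z₀ : ℍ) (ε : ℝ) (hε : 0 < ε) :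
    ∃ δ : ℝ, 0 < δ ∧ ∀ z : ℍ, dist z z₀ ≤ δ → dist (f z) (f z₀) ≤ ε := by
  obtain ⟨δ, hδ, h⟩ := Metric.continuousAt_iff.1 hf.continuousAt ε hε
  exact ⟨δ / 2, by positivity, fun z hz => (h (lt_of_le_of_lt hz (by linarith))).le⟩

/-- part (a) for one pair of indices -/
lemma pairA (h9 : S_ORB) (f k : ℍ → ℍ) (hf : Continuous f) (hk : Continuous k) (z₀ : ℍ)
    (hne : ∀ g : SL(2, ℤ), g • k z₀ ≠ f z₀) :
    ∀ᶠ η in 𝓝[>] (0 : ℝ), ∀ z : ℍ, dist z z₀ ≤ η → ∀ g : SL(2, ℤ), η ≤ dist (f z) (g • k z) := by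
  refine ev (fun a b hab hb z hz g => hab.trans (hb z (hz.trans hab) g)) ?_
  obtain ⟨η₁, h1, h2⟩ := h9.2 (f z₀) (k z₀) hne
  obtain ⟨δ, hδ, hδ'⟩ := near hf z₀ (η₁ / 4) (by positivity)
  obtain ⟨δ₂, hδ₂, hδ₂'⟩ := near hk z₀ (η₁ / 4) (by positivity)
  refine ⟨min (η₁ / 2) (min δ δ₂), by positivity, fun z hz g => ?_⟩
  have e1 := hδ' z (hz.trans ((min_le_right _ _).trans (min_le_left _ _)))
  have e2 := hδ₂' z (hz.trans ((min_le_right _ _).trans (min_le_right _ _)))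
  have e3 := h2 g
  have e4 := h9.1 g (k z) (k z₀)
  have e5 := dist_triangle4 (f z₀) (f z) (g • k z) (g • k z₀)
  have e6 : min (η₁ / 2) (min δ δ₂) ≤ η₁ / 2 := min_le_left _ _
  rw [dist_comm (f z₀) (f z)] at e5
  linarith

/-- part (b) for one index -/
lemma pairB (h8 : S_FIN) (f : ℍ → ℍ) (hf : Continuous f) (z₀ : ℍ) (D : ℤ) :
    ∀ᶠ η in 𝓝[>] (0 : ℝ), ¬ Geo D (f z₀) →
      ∀ z : ℍ, dist z z₀ ≤ η → ∀ e : ℍ, Geo D e → η ≤ dist (f z) e := by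
  by_cases hG : Geo D (f z₀)
  · exact Eventually.of_forall fun _ h => absurd hG h
  have : ∀ᶠ η in 𝓝[>] (0 : ℝ), ∀ z : ℍ, dist z z₀ ≤ η → ∀ e : ℍ, Geo D e → η ≤ dist (f z) e := by
    refine ev (fun a b hab hb z hz e he => hab.trans (hb z (hz.trans hab) e he)) ?_
    obtain ⟨η₁, h1, h2⟩ := h8.2 D (f z₀) hG
    obtain ⟨δ, hδ, hδ'⟩ := near hf z₀ (η₁ / 2) (by positivity)
    refine ⟨min (η₁ / 2) δ, by positivity, fun z hz e he => ?_⟩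
    have e1 := hδ' z (hz.trans (min_le_right _ _))
    have e3 := h2 e he
    have e5 := dist_triangle (f z₀) (f z) e
    have e6 : min (η₁ / 2) δ ≤ η₁ / 2 := min_le_left _ _
    rw [dist_comm (f z₀) (f z)] at e5
    linarith
  filter_upwards [this] with η h _ using h

lemma idx_hk {p : ℕ} {s : ℕ × (ℕ × ℕ)} (hs : s ∈ idx p) : s.2 ∈ hk s.1 := by
  unfold idx at hs
  rcases Finset.mem_union.1 hs with h | h
  · obtain ⟨x, hx, rfl⟩ := Finset.mem_image.1 h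
    exact hx
  · obtain ⟨x, hx, rfl⟩ := Finset.mem_image.1 h
    exact Finset.mem_of_mem_erase hx

open Classical in
/-- the union bound -/
lemma cnt (D₀ : ℕ) (H : Finset (ℕ × ℕ)) (f : ℕ × ℕ → ℍ → ℍ) (z₀ z : ℍ) (η : ℝ) (bd : ℕ → ℕ)
    (hb : ∀ D ∈ Finset.Icc 1 D₀, {x : ℕ × ℕ | x ∈ H ∧ Geo (D : ℤ) (f x z₀)}.ncard ≤ bd D)
    (hη : ∀ D ∈ Finset.Icc 1 D₀, ∀ x ∈ H, ¬ Geo (D : ℤ) (f x z₀) →
      ∀ e : ℍ, Geo (D : ℤ) e → η ≤ dist (f x z) e) :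
    {x : ℕ × ℕ | x ∈ H ∧ ¬ Far D₀ η (f x z)}.ncard ≤ ∑ D ∈ Finset.Icc 1 D₀, bd D := by
  have hsub : {x : ℕ × ℕ | x ∈ H ∧ ¬ Far D₀ η (f x z)} ⊆
      (((Finset.Icc 1 D₀).biUnion fun D => H.filter fun x => Geo (D : ℤ) (f x z₀) :
        Finset (ℕ × ℕ)) : Set (ℕ × ℕ)) := by
    rintro x ⟨hx, hF⟩
    unfold Far at hF
    push Not at hF
    obtain ⟨D, hD0, hD1, -, e, he, hd⟩ := hF
    lift D to ℕ using hD0.le
    have hDm : D ∈ Finset.Icc 1 D₀ := Finset.mem_Icc.2 ⟨by exact_mod_cast hD0, by exact_mod_cast hD1⟩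
    rw [Finset.mem_coe, Finset.mem_biUnion]
    refine ⟨D, hDm, Finset.mem_filter.2 ⟨hx, ?_⟩⟩
    by_contra hcon
    exact absurd (hη D hDm x hx hcon e he) (not_le.2 hd)
  calc {x : ℕ × ℕ | x ∈ H ∧ ¬ Far D₀ η (f x z)}.ncard
      ≤ (((Finset.Icc 1 D₀).biUnion fun D => H.filter fun x => Geo (D : ℤ) (f x z₀) :
        Finset (ℕ × ℕ)) : Set (ℕ × ℕ)).ncard := Set.ncard_le_ncard hsub (Finset.finite_toSet _)
    _ = ((Finset.Icc 1 D₀).biUnion fun D => H.filter fun x => Geo (D : ℤ) (f x z₀)).card :=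
        Set.ncard_coe_finset _
    _ ≤ ∑ D ∈ Finset.Icc 1 D₀, (H.filter fun x => Geo (D : ℤ) (f x z₀)).card :=
        Finset.card_biUnion_le
    _ ≤ ∑ D ∈ Finset.Icc 1 D₀, bd D := by
        refine Finset.sum_le_sum fun D hD => ?_
        refine le_trans (le_of_eq ?_) (hb D hD)
        rw [← Set.ncard_coe_finset]
        congr 1
        ext x
        simp

theorem s_local (h1 : S_HPT) (h3 : S_PRIMES) (h5 : S_DISJ2) (h6 : S_COUNT1) (h7 : S_COUNT2)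
    (h8 : S_FIN) (h9 : S_ORB) : S_LOCAL := by
  classical
  intro D₀ N z₀
  have hfin : ∀ D : ℕ, {t : ℤ × ℤ × ℤ | t.2.1 ^ 2 - 4 * t.1 * t.2.2 = (D : ℤ) ∧
      ∃ e ∈ ({z₀} : Set ℍ), OnForm t.1 t.2.1 t.2.2 e}.Finite := fun D =>
    h8.1 D {z₀} isCompact_singleton
  set F : ℕ → Finset (ℤ × ℤ × ℤ) := fun D => (hfin D).toFinset with hF
  have hFm : ∀ D : ℕ, ∀ A B C : ℤ, B ^ 2 - 4 * A * C = (D : ℤ) → OnForm A B C z₀ →
      (A, B, C) ∈ F D := by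
    intro D A B C hD hO
    rw [hF, Set.Finite.mem_toFinset]
    exact ⟨hD, z₀, rfl, hO⟩
  set A : ℕ := ∑ D ∈ Finset.Icc 1 D₀, (3 * (F D).card + 1) with hA
  obtain ⟨P, hPs, hPc⟩ := ((h3 z₀).sdiff (Set.finite_Iic (2 + D₀ + 4 * (A + 1) ^ 2))
    ).exists_subset_card_eq (N + 1)
  have hP : ∀ p ∈ P, p.Prime ∧ Good z₀ p ∧ 2 + D₀ + 4 * (A + 1) ^ 2 < p := by
    intro p hp
    have := hPs hp
    refine ⟨this.1.1, this.1.2, ?_⟩
    have h := this.2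
    simpa using h
  -- the eventual properties
  have evA : ∀ᶠ η in 𝓝[>] (0 : ℝ), ∀ p ∈ P, ∀ q ∈ P, p ≠ q → ∀ s ∈ idx p, ∀ t ∈ idx q,
      ∀ z : ℍ, dist z z₀ ≤ η → ∀ g : SL(2, ℤ), η ≤ dist (ptH s.1 s.2 z) (g • ptH t.1 t.2 z) := by
    rw [Finset.eventually_all]
    intro p hp
    rw [Finset.eventually_all]
    intro q hq
    by_cases hpq : p = q
    · exact Eventually.of_forall fun _ h => absurd hpq h
    have : ∀ᶠ η in 𝓝[>] (0 : ℝ), ∀ s ∈ idx p, ∀ t ∈ idx q,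
      ∀ z : ℍ, dist z z₀ ≤ η → ∀ g : SL(2, ℤ), η ≤ dist (ptH s.1 s.2 z) (g • ptH t.1 t.2 z) := by
      rw [Finset.eventually_all]
      intro s hs
      rw [Finset.eventually_all]
      intro t ht
      exact pairA h9 (ptH s.1 s.2) (ptH t.1 t.2) (h1.2.2.2.2 s.1 s.2 (idx_hk hs))
        (h1.2.2.2.2 t.1 t.2 (idx_hk ht)) z₀
        (h5 z₀ p q (hP p hp).1 (hP q hq).1 hpq (hP p hp).2.1 (hP q hq).2.1 s hs t ht)
    filter_upwards [this] with η h _ using h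
  have evB : ∀ᶠ η in 𝓝[>] (0 : ℝ), ∀ p ∈ P, ∀ s ∈ idx p, ∀ D ∈ Finset.Icc 1 D₀,
      ¬ Geo (D : ℤ) (ptH s.1 s.2 z₀) →
      ∀ z : ℍ, dist z z₀ ≤ η → ∀ e : ℍ, Geo (D : ℤ) e → η ≤ dist (ptH s.1 s.2 z) e := by
    rw [Finset.eventually_all]
    intro p hp
    rw [Finset.eventually_all]
    intro s hs
    rw [Finset.eventually_all]
    intro D _
    exact pairB h8 (ptH s.1 s.2) (h1.2.2.2.2 s.1 s.2 (idx_hk hs)) z₀ D
  obtain ⟨η, ⟨hA', hB'⟩, hη⟩ := ((evA.and evB).and self_mem_nhdsWithin).exists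
  refine ⟨η, hη, P, hPc, A, fun p hp => ⟨(hP p hp).1, by have := (hP p hp).2.2; omega⟩,
    fun z hz => ⟨fun p hp q hq hpq s hs t ht g => hA' p hp q hq hpq s hs t ht z hz g,
      fun p hp => ⟨?_, ?_⟩⟩⟩
  · have hle : ∑ D ∈ Finset.Icc 1 D₀, (2 * (F D).card + 1) ≤ A :=
      Finset.sum_le_sum fun D _ => by omega
    refine le_trans (cnt D₀ (hk p) (fun x => ptH p x) z₀ z η (fun D => 2 * (F D).card + 1) ?_ ?_) hle
    · intro D hD
      rw [Finset.mem_Icc] at hD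
      have h := hP p hp
      exact h6 z₀ D (by exact_mod_cast hD.1) p h.1 (by omega) (by
        have : D < p := by omega
        exact_mod_cast this) h.2.1 (F D) (hFm D)
    · intro D hD x hx hG e he
      exact hB' p hp (p, x) (Finset.mem_union_left _ (Finset.mem_image_of_mem _ hx)) D hD hG z hz e he
  · refine cnt D₀ (prim p) (fun x => ptH (p ^ 2) x) z₀ z η (fun D => 3 * (F D).card + 1) ?_ ?_
    · intro D hD
      rw [Finset.mem_Icc] at hD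
      have h := hP p hp
      exact h7 z₀ D (by exact_mod_cast hD.1) p h.1 (by omega) (by
        have : D < p := by omega
        exact_mod_cast this) h.2.1 (F D) (hFm D)
    · intro D hD x hx hG e he
      exact hB' p hp (p ^ 2, x) (Finset.mem_union_right _ (Finset.mem_image_of_mem _ hx)) D hD hG
        z hz e he

end Pool.Agent.NH65.SN.Local
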