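import Pool.Agent.NH65.SN.Defs

set_option autoImplicit false
open Pool.Agent.NH65.SN
open scoped UpperHalfPlane MatrixGroups

namespace Pool.Agent.NH65.SN.Orb

lemma isom (g : SL(2, ℤ)) (z w : ℍ) : dist (g • z) (g • w) = dist z w := by
  have h : ∀ z : ℍ, g • z = (Matrix.SpecialLinearGroup.map (Int.castRingHom ℝ) g : SL(2, ℝ)) • z := by
    intro z
    rfl
  rw [h, h]
  exact dist_smul _ _ _

theorem s_orb : S_ORB := by
  refine ⟨isom, ?_⟩
  intro w w' hne
  have hfin := (finite_disjoint_inter_image (Γ := 𝒮ℒ) (T := ℍ) (K := {w'})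
    (L := Metric.closedBall w 1) isCompact_singleton (isCompact_closedBall w 1))
  -- the finite set of orbit points in the ball
  set P : Set ℍ := {v | v ∈ Metric.closedBall w 1 ∧ ∃ g : SL(2, ℤ), v = g • w'} with hP
  have hPfin : P.Finite := by
    refine (hfin.image (fun γ : 𝒮ℒ => γ • w')).subset ?_
    rintro v ⟨hv, g, rfl⟩
    refine ⟨⟨(Matrix.SpecialLinearGroup.mapGL ℝ) g, ⟨g, rfl⟩⟩, ?_, rfl⟩
    exact ⟨g • w', ⟨w', rfl, rfl⟩, hv⟩
  have hw : w ∉ P := by
    rintro ⟨-, g, hg⟩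
    exact hne g hg.symm
  have hopen : IsOpen (Pᶜ) := hPfin.isClosed.isOpen_compl
  obtain ⟨ε, hε, hball⟩ := Metric.isOpen_iff.mp hopen w hw
  refine ⟨min 1 ε, lt_min one_pos hε, ?_⟩
  intro g
  by_contra hlt
  push Not at hlt
  have h1 : dist w (g • w') < 1 := lt_of_lt_of_le hlt (min_le_left _ _)
  have h2 : dist w (g • w') < ε := lt_of_lt_of_le hlt (min_le_right _ _)
  have hmem : g • w' ∈ Metric.ball w ε := by
    rw [Metric.mem_ball, dist_comm]; exact h2
  apply hball hmem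
  refine ⟨?_, g, rfl⟩
  rw [Metric.mem_closedBall, dist_comm]; exact h1.le

end Pool.Agent.NH65.SN.Orb
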