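import Pool.Agent.NH65.SN.Count1

/-!
# SN-3: every point has infinitely many good primes
-/

set_option autoImplicit false
open scoped UpperHalfPlane MatrixGroups

namespace Pool.Agent.NH65.SN.Primes

open Pool.Agent.NH65.SN Pool.Agent.NH65.SN.Count1

theorem norm_sq_eq (z : ℍ) : ‖(z : ℂ)‖ ^ 2 = z.re ^ 2 + z.im ^ 2 := by
  rw [← Complex.normSq_eq_norm_sq, Complex.normSq_apply]
  have h1 : z.re = (z : ℂ).re := rfl
  have h2 : z.im = (z : ℂ).im := rfl
  rw [h1, h2]
  ring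

theorem nds {n : ℤ} (hn : n ≠ 0) {p : ℕ} (h : n.natAbs < p) : ¬ (p : ℤ) ∣ n := by
  intro hd
  have h1 : p ∣ n.natAbs := Int.natCast_dvd.1 hd
  exact absurd (Nat.le_of_dvd (Int.natAbs_pos.2 hn) h1) (not_le.2 h)

theorem quad_re {z : ℍ} {c u v : ℤ} (h : (c : ℂ) * (z : ℂ) ^ 2 + (u : ℂ) * z + v = 0) :
    2 * (c : ℝ) * z.re = -u ∧ (c : ℝ) * ‖(z : ℂ)‖ ^ 2 = v := by
  have hy : z.im ≠ 0 := z.im_pos.ne'
  have e : (c : ℂ) * (z : ℂ) ^ 2 + (u : ℂ) * z + v =
      ((c * (z.re ^ 2 - z.im ^ 2) + u * z.re + v : ℝ) : ℂ) +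
      ((z.im * (2 * c * z.re + u) : ℝ) : ℂ) * Complex.I := by
    have h4 : (z : ℂ) = (z.re : ℂ) + (z.im : ℂ) * Complex.I := (Complex.re_add_im _).symm
    rw [h4]
    push_cast
    linear_combination (c : ℂ) * (z.im : ℂ) ^ 2 * Complex.I_sq
  rw [e] at h
  have hre := congrArg Complex.re h
  have him := congrArg Complex.im h
  simp only [Complex.add_re, Complex.ofReal_re, Complex.mul_re, Complex.I_re, mul_zero,
    Complex.ofReal_im, Complex.I_im, mul_one, sub_self, add_zero, Complex.zero_re] at hre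
  simp only [Complex.add_im, Complex.ofReal_im, Complex.mul_im, Complex.ofReal_re, Complex.I_im,
    mul_one, Complex.I_re, mul_zero, add_zero, zero_add, Complex.zero_im] at him
  have h5 : 2 * (c : ℝ) * z.re + u = 0 := (mul_eq_zero.1 him).resolve_left hy
  refine ⟨by linarith, ?_⟩
  rw [norm_sq_eq]
  linear_combination z.re * h5 - hre

theorem quad_of {z : ℍ} {m u v : ℤ} (h1 : (m : ℝ) * z.re = -u) (h2 : (m : ℝ) * ‖(z : ℂ)‖ ^ 2 = v) :
    (m : ℂ) * (z : ℂ) ^ 2 + ((2 * u : ℤ) : ℂ) * z + v = 0 := by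
  have h1' : (m : ℂ) * (z.re : ℂ) = -u := by exact_mod_cast congrArg (fun t : ℝ => (t : ℂ)) h1
  rw [norm_sq_eq] at h2
  have h2' : (m : ℂ) * ((z.re : ℂ) ^ 2 + (z.im : ℂ) ^ 2) = v := by
    exact_mod_cast congrArg (fun t : ℝ => (t : ℂ)) h2
  have h4 : (z : ℂ) = (z.re : ℂ) + (z.im : ℂ) * Complex.I := (Complex.re_add_im _).symm
  rw [h4]
  push_cast
  linear_combination (2 * (z.re : ℂ) + 2 * (z.im : ℂ) * Complex.I) * h1' - h2' +
    (m : ℂ) * (z.im : ℂ) ^ 2 * Complex.I_sq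

/-- good primes of a CM point -/
theorem good_cm {z : ℍ} {α β γ : ℤ}
    (h1 : 2 * (α : ℝ) * z.re = -β) (h2 : (α : ℝ) * ‖(z : ℂ)‖ ^ 2 = γ) {p : ℕ} (hp : p.Prime)
    (hpα : ¬ (p : ℤ) ∣ 2 * α)
    (hs : ∀ X Y : ℤ, (p : ℤ) ∣ X ^ 2 - (β ^ 2 - 4 * α * γ) * Y ^ 2 → (p : ℤ) ∣ X ∧ (p : ℤ) ∣ Y) :
    Good z p := by
  have hpZ : Prime (p : ℤ) := Nat.prime_iff_prime_int.1 hp
  have hα : ¬ (p : ℤ) ∣ α := fun h => hpα (dvd_mul_of_dvd_right h 2)
  have h2' : ¬ (p : ℤ) ∣ 2 := fun h => hpα (dvd_mul_of_dvd_left h α)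
  refine ⟨fun A B C hon hd => ?_, fun a b c d hq hd => ?_⟩
  · have hrel : 2 * A * γ - B * β + 2 * C * α = 0 := by
      unfold OnForm at hon
      have h3 : (2 * A * γ - B * β + 2 * C * α : ℝ) = 0 := by
        linear_combination 2 * (α : ℝ) * hon - (B : ℝ) * h1 - 2 * (A : ℝ) * h2
      exact_mod_cast h3
    have h4 : (p : ℤ) ∣ (α * B - β * A) ^ 2 - (β ^ 2 - 4 * α * γ) * A ^ 2 := by
      have e : (α * B - β * A) ^ 2 - (β ^ 2 - 4 * α * γ) * A ^ 2 =
          α ^ 2 * (B ^ 2 - 4 * A * C) := by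
        linear_combination 2 * α * A * hrel
      rw [e]
      exact dvd_mul_of_dvd_right hd _
    obtain ⟨h5, h6⟩ := hs _ _ h4
    have h7 : (p : ℤ) ∣ α * B := by
      have := dvd_add h5 (dvd_mul_of_dvd_right h6 β)
      rwa [sub_add_cancel] at this
    have h8 := (hpZ.dvd_or_dvd h7).resolve_left hα
    refine ⟨h6, h8, ?_⟩
    have h9 : (p : ℤ) ∣ 2 * α * C := by
      have e : 2 * α * C = B * β - 2 * γ * A := by linear_combination hrel
      rw [e]
      exact dvd_sub (dvd_mul_of_dvd_left h8 _) (dvd_mul_of_dvd_right h6 _)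
    exact (hpZ.dvd_or_dvd h9).resolve_left hpα
  · have hq' : (c : ℂ) * (z : ℂ) ^ 2 + ((d - a : ℤ) : ℂ) * z + ((-b : ℤ) : ℂ) = 0 := by
      push_cast
      linear_combination hq
    obtain ⟨q1, q2⟩ := quad_re hq'
    push_cast at q1 q2
    have r1 : α * (d - a) = β * c := by
      have h3 : (α * (d - a) : ℝ) = β * c := by
        linear_combination (α : ℝ) * q1 - (c : ℝ) * h1
      exact_mod_cast h3
    have r2 : α * b = -(γ * c) := by
      have h3 : (α * b : ℝ) = -(γ * c) := by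
        linear_combination (α : ℝ) * q2 - (c : ℝ) * h2
      exact_mod_cast h3
    have h4 : (p : ℤ) ∣ (α * (a + d)) ^ 2 - (β ^ 2 - 4 * α * γ) * c ^ 2 := by
      have e : (α * (a + d)) ^ 2 - (β ^ 2 - 4 * α * γ) * c ^ 2 =
          4 * α ^ 2 * (a * d - b * c) := by
        linear_combination (α * (d - a) + β * c) * r1 + 4 * α * c * r2
      rw [e]
      exact dvd_mul_of_dvd_right hd _
    obtain ⟨h5, h6⟩ := hs _ _ h4
    have h7 := (hpZ.dvd_or_dvd h5).resolve_left hα
    have h8 : (p : ℤ) ∣ d - a := by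
      have : (p : ℤ) ∣ α * (d - a) := by
        rw [r1]
        exact dvd_mul_of_dvd_right h6 _
      exact (hpZ.dvd_or_dvd this).resolve_left hα
    have h9 : (p : ℤ) ∣ a := by
      have := dvd_sub h7 h8
      rw [show a + d - (d - a) = 2 * a by ring] at this
      exact (hpZ.dvd_or_dvd this).resolve_left h2'
    have h10 : (p : ℤ) ∣ d := by
      have := dvd_add h7 h8
      rw [show a + d + (d - a) = 2 * d by ring] at this
      exact (hpZ.dvd_or_dvd this).resolve_left h2'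
    refine ⟨h9, ?_, h6, h10⟩
    have h11 : (p : ℤ) ∣ α * b := by
      rw [r2]
      exact (dvd_neg).2 (dvd_mul_of_dvd_right h6 _)
    exact (hpZ.dvd_or_dvd h11).resolve_left hα

/-- a negative number is not a square modulo the primes `-1` modulo `4 |e|` -/
theorem nonsq {e : ℤ} (he : e < 0) {p : ℕ} [Fact p.Prime] (hp : (p : ZMod (4 * e.natAbs)) = -1) :
    legendreSym p e = -1 := by
  obtain ⟨E, hE⟩ : ∃ E : ℕ, e.natAbs = E := ⟨_, rfl⟩
  have hE0 : 0 < E := by omega
  have heE : e = -(E : ℤ) := by omega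
  rw [hE] at hp
  -- `p = 4 E - 1` modulo `4 E`
  have hmod : p % (4 * E) = 4 * E - 1 := by
    have h1 : ((p + 1 : ℕ) : ZMod (4 * E)) = 0 := by
      push_cast
      rw [hp]
      ring
    rw [ZMod.natCast_eq_zero_iff] at h1
    obtain ⟨k, hk⟩ := h1
    have hk0 : 0 < k := by
      rcases Nat.eq_zero_or_pos k with h | h
      · rw [h, mul_zero] at hk
        omega
      · exact h
    obtain ⟨j, rfl⟩ : ∃ j, k = j + 1 := ⟨k - 1, by omega⟩
    have h2 : p = 4 * E - 1 + 4 * E * j := by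
      have h3 : 4 * E * (j + 1) = 4 * E * j + 4 * E := by ring
      omega
    rw [h2, Nat.add_mul_mod_self_left]
    exact Nat.mod_eq_of_lt (by omega)
  have hodd : Odd p := by
    have h3 : p % 2 = 1 := by
      have h4 := Nat.mod_mod_of_dvd p (show 2 ∣ 4 * E from ⟨2 * E, by ring⟩)
      rw [hmod] at h4
      omega
    exact Nat.odd_iff.2 h3
  rw [jacobiSym.legendreSym.to_jacobiSym, jacobiSym.mod_right e hodd, hE, hmod]
  obtain ⟨b, hb⟩ : ∃ b, b = 4 * E - 1 := ⟨_, rfl⟩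
  rw [← hb]
  have hbodd : Odd b := Nat.odd_iff.2 (by omega)
  have hb4 : b % 4 = 3 := by omega
  have h5 : jacobiSym (4 * e) b = -1 := by
    have h6 : jacobiSym (4 * e) b = jacobiSym (-1) b := by
      refine jacobiSym.mod_left' ?_
      refine Int.emod_eq_emod_iff_emod_sub_eq_zero.2 (Int.emod_eq_zero_of_dvd ⟨-1, ?_⟩)
      rw [heE]
      have : (b : ℤ) = 4 * E - 1 := by omega
      rw [this]
      ring
    rw [h6, jacobiSym.at_neg_one hbodd]
    exact ZMod.χ₄_nat_three_mod_four hb4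
  have h7 : jacobiSym 4 b = 1 := by
    have h8 : (4 : ℤ) = 2 ^ 2 := by norm_num
    rw [h8, jacobiSym.pow_left]
    refine jacobiSym.sq_one ?_
    have h9 : Nat.Coprime 2 b := (Nat.coprime_two_left (n := b)).2 hbodd
    exact_mod_cast h9
  rw [jacobiSym.mul_left, h7, one_mul] at h5
  exact h5

theorem s_primes : S_PRIMES := by
  intro z
  have hy : 0 < z.im := z.im_pos
  by_cases hcm : ∃ α β γ : ℤ, α ≠ 0 ∧ (α : ℂ) * (z : ℂ) ^ 2 + (β : ℂ) * z + γ = 0
  · obtain ⟨α, β, γ, hα, hq⟩ := hcm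
    obtain ⟨h1, h2⟩ := quad_re hq
    have he : β ^ 2 - 4 * α * γ < 0 := by
      have h3 : ((β ^ 2 - 4 * α * γ : ℤ) : ℝ) = -(4 * (α : ℝ) ^ 2 * z.im ^ 2) := by
        rw [norm_sq_eq] at h2
        push_cast
        linear_combination (-(β : ℝ) + 2 * (α : ℝ) * z.re) * h1 * (-1) + 4 * (α : ℝ) * h2
      have hα' : (α : ℝ) ≠ 0 := by exact_mod_cast hα
      have h4 : ((β ^ 2 - 4 * α * γ : ℤ) : ℝ) < 0 := by
        rw [h3]
        have : 0 < 4 * (α : ℝ) ^ 2 * z.im ^ 2 := by positivity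
        linarith
      exact_mod_cast h4
    have hne : NeZero (4 * (β ^ 2 - 4 * α * γ).natAbs) := ⟨by omega⟩
    have hinf := Nat.infinite_setOfPred_prime_and_eq_mod (q := 4 * (β ^ 2 - 4 * α * γ).natAbs)
      (a := -1) isUnit_one.neg
    refine (hinf.sdiff (Set.finite_le_nat (2 * α).natAbs)).mono ?_
    rintro p ⟨⟨hp, hpm⟩, hpl⟩
    have hpl' : (2 * α).natAbs < p := by
      by_contra h
      exact hpl (not_lt.1 h)
    have : Fact p.Prime := ⟨hp⟩
    refine ⟨hp, good_cm h1 h2 hp ?_ fun X Y h => ?_⟩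
    · refine nds (by omega) ?_
      omega
    · exact legendreSym.prime_dvd_of_eq_neg_one (nonsq he hpm) h
  · push Not at hcm
    -- the forms on `z` are proportional
    have hzero : ∀ β γ : ℤ, ((0 : ℤ) : ℂ) * (z : ℂ) ^ 2 + (β : ℂ) * z + γ = 0 → β = 0 ∧ γ = 0 := by
      intro β γ h
      obtain ⟨h1, h2⟩ := quad_re h
      push_cast at h1 h2
      rw [mul_zero, zero_mul] at h1
      rw [zero_mul] at h2
      have h3 : (β : ℝ) = 0 := by linarith
      exact ⟨by exact_mod_cast h3, by exact_mod_cast h2.symm⟩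
    have hii : ∀ p : ℕ, p.Prime → ∀ a b c d : ℤ,
        (c : ℂ) * (z : ℂ) ^ 2 + ((d : ℂ) - a) * z - b = 0 → (p : ℤ) ∣ a * d - b * c →
        (p : ℤ) ∣ a ∧ (p : ℤ) ∣ b ∧ (p : ℤ) ∣ c ∧ (p : ℤ) ∣ d := by
      intro p hp a b c d hq hd
      have hpZ : Prime (p : ℤ) := Nat.prime_iff_prime_int.1 hp
      have hq' : (c : ℂ) * (z : ℂ) ^ 2 + ((d - a : ℤ) : ℂ) * z + ((-b : ℤ) : ℂ) = 0 := by
        push_cast
        linear_combination hq
      have hc : c = 0 := by
        by_contra hc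
        exact hcm c (d - a) (-b) hc hq'
      rw [hc] at hq'
      obtain ⟨h1, h2⟩ := hzero _ _ hq'
      have hb : b = 0 := by omega
      have hda : d = a := by omega
      rw [hda, hb, hc, zero_mul, sub_zero] at hd
      have h3 : (p : ℤ) ∣ a := (hpZ.dvd_or_dvd hd).elim id id
      rw [hda, hb, hc]
      exact ⟨h3, dvd_zero _, dvd_zero _, h3⟩
    have hminor : ∀ A B C A' B' C' : ℤ, OnForm A B C z → OnForm A' B' C' z →
        A * B' = A' * B ∧ A * C' = A' * C ∧ B * C' = B' * C := by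
      intro A B C A' B' C' h h'
      unfold OnForm at h h'
      have e1 : ((A * B' - A' * B : ℤ) : ℝ) * z.re = -((A * C' - A' * C : ℤ) : ℝ) := by
        push_cast
        linear_combination (A : ℝ) * h' - (A' : ℝ) * h
      have e2 : ((A * B' - A' * B : ℤ) : ℝ) * ‖(z : ℂ)‖ ^ 2 = ((B * C' - B' * C : ℤ) : ℝ) := by
        push_cast
        linear_combination (B' : ℝ) * h - (B : ℝ) * h'
      have hm : A * B' - A' * B = 0 := by
        by_contra hm
        exact hcm _ _ _ hm (quad_of e1 e2)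
      rw [hm, Int.cast_zero, zero_mul] at e1 e2
      have e1' : ((A * C' - A' * C : ℤ) : ℝ) = 0 := by linarith
      have e1'' : A * C' - A' * C = 0 := by exact_mod_cast e1'
      have e2'' : B * C' - B' * C = 0 := by exact_mod_cast e2.symm
      exact ⟨by omega, by omega, by omega⟩
    by_cases hall : ∀ A B C : ℤ, OnForm A B C z → A = 0 ∧ B = 0 ∧ C = 0
    · refine Nat.infinite_setOfPred_prime.mono ?_
      intro p hp
      refine ⟨hp, fun A B C h _ => ?_, hii p hp⟩
      obtain ⟨h1, h2, h3⟩ := hall A B C h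
      rw [h1, h2, h3]
      exact ⟨dvd_zero _, dvd_zero _, dvd_zero _⟩
    · push Not at hall
      obtain ⟨A0, B0, C0, h0, hne0⟩ := hall
      have hd0 : B0 ^ 2 - 4 * A0 * C0 ≠ 0 ∧ (A0 = 0 → B0 ≠ 0) := by
        have hz := h0
        unfold OnForm at hz
        rw [norm_sq_eq] at hz
        have hB : A0 = 0 → B0 ≠ 0 := by
          intro hA hB
          rw [hA, hB] at hz
          push_cast at hz
          have hC : (C0 : ℝ) = 0 := by linarith
          exact hne0 hA hB (by exact_mod_cast hC)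
        refine ⟨?_, hB⟩
        by_cases hA : A0 = 0
        · rw [hA]
          have := hB hA
          simpa using this
        · intro hd
          have h5 : ((B0 ^ 2 - 4 * A0 * C0 : ℤ) : ℝ) =
              (2 * (A0 : ℝ) * z.re + B0) ^ 2 + 4 * (A0 : ℝ) ^ 2 * z.im ^ 2 := by
            push_cast
            linear_combination (-4) * (A0 : ℝ) * hz
          rw [hd] at h5
          have hA' : (A0 : ℝ) ≠ 0 := by exact_mod_cast hA
          have h6 : 0 < 4 * (A0 : ℝ) ^ 2 * z.im ^ 2 := by positivity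
          have h7 : 0 ≤ (2 * (A0 : ℝ) * z.re + B0) ^ 2 := sq_nonneg _
          push_cast at h5
          linarith
      refine (Nat.infinite_setOfPred_prime.sdiff (Set.finite_le_nat
        ((B0 ^ 2 - 4 * A0 * C0).natAbs + A0.natAbs + B0.natAbs))).mono ?_
      rintro p ⟨hp, hpl⟩
      have hp' : p.Prime := hp
      have hpl' : (B0 ^ 2 - 4 * A0 * C0).natAbs + A0.natAbs + B0.natAbs < p := by
        by_contra h
        exact hpl (not_lt.1 h)
      have hpZ : Prime (p : ℤ) := Nat.prime_iff_prime_int.1 hp'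
      have nd0 : ¬ (p : ℤ) ∣ B0 ^ 2 - 4 * A0 * C0 := nds hd0.1 (by omega)
      refine ⟨hp', fun A B C h hd => ?_, hii p hp'⟩
      obtain ⟨m1, m2, m3⟩ := hminor A B C A0 B0 C0 h h0
      by_cases hA : A0 = 0
      · have hB := hd0.2 hA
        have ndB : ¬ (p : ℤ) ∣ B0 := nds hB (by omega)
        have hA1 : A = 0 := by
          rw [hA, zero_mul] at m1
          exact (mul_eq_zero.1 m1).resolve_right hB
        rw [hA1, mul_zero, zero_mul, sub_zero] at hd
        have h5 : (p : ℤ) ∣ B := hpZ.dvd_of_dvd_pow hd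
        refine ⟨by rw [hA1]; exact dvd_zero _, h5, ?_⟩
        have h6 : (p : ℤ) ∣ B0 * C := by
          rw [← m3]
          exact dvd_mul_of_dvd_left h5 _
        exact (hpZ.dvd_or_dvd h6).resolve_left ndB
      · have ndA : ¬ (p : ℤ) ∣ A0 := nds hA (by omega)
        have h5 : (p : ℤ) ∣ A := by
          have e : A0 ^ 2 * (B ^ 2 - 4 * A * C) = A ^ 2 * (B0 ^ 2 - 4 * A0 * C0) := by
            linear_combination (-(A0 * B) - A * B0) * m1 + 4 * A * A0 * m2
          have h6 : (p : ℤ) ∣ A ^ 2 * (B0 ^ 2 - 4 * A0 * C0) := by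
            rw [← e]
            exact dvd_mul_of_dvd_right hd _
          exact hpZ.dvd_of_dvd_pow ((hpZ.dvd_or_dvd h6).resolve_right nd0)
        refine ⟨h5, ?_, ?_⟩
        · have h6 : (p : ℤ) ∣ A0 * B := by
            rw [← m1]
            exact dvd_mul_of_dvd_left h5 _
          exact (hpZ.dvd_or_dvd h6).resolve_left ndA
        · have h6 : (p : ℤ) ∣ A0 * C := by
            rw [← m2]
            exact dvd_mul_of_dvd_left h5 _
          exact (hpZ.dvd_or_dvd h6).resolve_left ndA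

end Pool.Agent.NH65.SN.Primes
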