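import Pool.Agent.NH65.SN.Main
import Pool.Agent.NH65.SN.HPT
import Pool.Agent.NH65.SN.Hecke
import Pool.Agent.NH65.SN.Disj
import Pool.Agent.NH65.SN.Disj2
import Pool.Agent.NH65.SN.Orb
import Pool.Agent.NH65.SN.HT
import Pool.Agent.NH65.SN.Fin
import Pool.Agent.NH65.SN.Inv
import Pool.Agent.NH65.SN.Local
import Pool.Agent.NH65.SN.Primes
import Pool.Agent.NH65.SN.Count1
import Pool.Agent.NH65.SN.Count2

set_option autoImplicit false
open scoped UpperHalfPlane MatrixGroups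

namespace Pool.Agent.NH65.SN.All

open Pool.Agent.NH65.SN

theorem s_all : S_MAIN :=
  Main.s_main HPT.s_hpt Hecke.s_hecke Orb.s_orb (HT.s_ht Orb.s_orb) Inv.s_inv
    (Local.s_local HPT.s_hpt Primes.s_primes (Disj2.s_disj2 HPT.s_hpt Disj.s_disj)
      (Count1.s_count1 HPT.s_hpt) (Count2.s_count2 HPT.s_hpt) Fin.s_fin Orb.s_orb)

theorem iso : ∀ g : SL(2, ℤ), ∀ z w : ℍ, dist (g • z) (g • w) = dist z w := Orb.s_orb.1

end Pool.Agent.NH65.SN.All
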