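import Mathlib

set_option autoImplicit false
open MeasureTheory
open scoped UpperHalfPlane MatrixGroups

/-!
# Project SN (MP_8fded1_nt): large values of Hecke-Maass forms are not concentrated near boundedly
many points or on closed geodesics.  Definitions and statements of the jobs.
-/

namespace Pool.Agent.NH65.SN

/-- `U` is an `L^2`-normalised Hecke-Maass cusp form for `SL_2(Z)` with Laplace eigenvalue
`1/4 + T^2` (the clauses are those of the frozen statement of the problem). -/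
def IsHeckeMaass (U : ℂ → ℂ) (T : ℝ) : Prop :=
  ContDiffOn ℝ 2 U {z : ℂ | 0 < z.im} ∧
  (∀ z : ℂ, 0 < z.im → U (z + 1) = U z ∧ U (-z⁻¹) = U z) ∧
  (∀ z : ℂ, 0 < z.im →
    -((z.im : ℂ)) ^ 2 *
      (deriv (deriv (fun t : ℝ => U (z + (t : ℂ)))) 0 +
        deriv (deriv (fun t : ℝ => U (z + (t : ℂ) * Complex.I))) 0)
      = (1 / 4 + (T : ℂ) ^ 2) * U z) ∧
  (∀ y : ℝ, 0 < y →
    intervalIntegral (fun x : ℝ => U ((x : ℂ) + (y : ℂ) * Complex.I)) 0 1 volume = 0) ∧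
  (∫ z in {z : ℂ | 0 < z.im ∧ |z.re| ≤ 1 / 2 ∧ 1 ≤ ‖z‖}, ‖U z‖ ^ 2 / z.im ^ 2) = 1 ∧
  (∀ n : ℕ, 1 ≤ n → ∃ c : ℂ, ∀ z : ℂ, 0 < z.im →
    ∑ d ∈ n.divisors, ∑ b ∈ Finset.range d,
        U ((((n / d : ℕ) : ℂ) * z + (b : ℂ)) / (d : ℂ)) = c * U z)

/-- the point `z` lies on the geodesic `A |z|² + B Re z + C = 0` -/
def OnForm (A B C : ℤ) (z : ℍ) : Prop := (A : ℝ) * ‖(z : ℂ)‖ ^ 2 + B * z.re + C = 0

/-- `z` lies on a geodesic `A |z|² + B Re z + C = 0` with integers `A, B, C`, `B² - 4AC = D` -/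
def Geo (D : ℤ) (z : ℍ) : Prop := ∃ A B C : ℤ, B ^ 2 - 4 * A * C = D ∧ OnForm A B C z

/-- `w` has (hyperbolic) distance at least `δ` from all closed geodesics of nonsquare discriminant
`D ≤ D₀` -/
def Far (D₀ : ℕ) (δ : ℝ) (w : ℍ) : Prop :=
  ∀ D : ℤ, 0 < D → D ≤ D₀ → ¬ IsSquare D → ∀ e : ℍ, Geo D e → δ ≤ dist w e

/-- the sup-norm bound with exponent `s` on the set `K` -/
def SupNormBound (K : Set ℍ) (s : ℝ) : Prop :=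
  ∃ C : ℝ, ∀ U : ℂ → ℂ, ∀ T : ℝ, 1 ≤ T → IsHeckeMaass U T → ∀ z ∈ K, ‖U z‖ ≤ C * T ^ s

/-- the indices `(d, b)`, `d ∣ n`, `0 ≤ b < d`, of the Hecke operator `T_n` -/
def hk (n : ℕ) : Finset (ℕ × ℕ) := (n.divisors ×ˢ Finset.range n).filter (fun x => x.2 < x.1)

/-- the indices of the primitive matrices of determinant `p²` (`p` prime): all but `(p, 0)` -/
def prim (p : ℕ) : Finset (ℕ × ℕ) := (hk (p ^ 2)).erase (p, 0)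

/-- the Hecke point `((n / d) z + b) / d`, `x = (d, b)`, as a complex number -/
noncomputable def pt (n : ℕ) (x : ℕ × ℕ) (z : ℂ) : ℂ :=
  (((n / x.1 : ℕ) : ℂ) * z + (x.2 : ℂ)) / (x.1 : ℂ)

open Classical in
/-- the Hecke point in the upper half plane (`z` itself if `pt n x z` is not in it; this does not
happen for `x ∈ hk n`) -/
noncomputable def ptH (n : ℕ) (x : ℕ × ℕ) (z : ℍ) : ℍ :=
  if h : 0 < (pt n x z).im then ⟨pt n x z, h⟩ else z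

/-- all Hecke points of `T_p` and the primitive ones of `T_{p²}`: pairs (determinant, index) -/
def idx (p : ℕ) : Finset (ℕ × (ℕ × ℕ)) :=
  (hk p).image (fun x => (p, x)) ∪ (prim p).image (fun x => (p ^ 2, x))

/-- the prime `p` is good for the point `z` -/
def Good (z : ℍ) (p : ℕ) : Prop :=
  (∀ A B C : ℤ, OnForm A B C z → (p : ℤ) ∣ B ^ 2 - 4 * A * C →
    (p : ℤ) ∣ A ∧ (p : ℤ) ∣ B ∧ (p : ℤ) ∣ C) ∧
  (∀ a b c d : ℤ, (c : ℂ) * (z : ℂ) ^ 2 + ((d : ℂ) - a) * z - b = 0 → (p : ℤ) ∣ a * d - b * c →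
    (p : ℤ) ∣ a ∧ (p : ℤ) ∣ b ∧ (p : ℤ) ∣ c ∧ (p : ℤ) ∣ d)

/-! ## The statements of the jobs -/

/-- SN-1 HPT.  Elementary facts on `hk`, `prim`, `ptH`. -/
def S_HPT : Prop :=
  (∀ n : ℕ, ∀ x ∈ hk n, ∀ z : ℍ, ((ptH n x z : ℍ) : ℂ) = pt n x z) ∧
  (∀ p : ℕ, p.Prime → ∀ x : ℕ × ℕ, x ∈ hk p ↔ (x = (1, 0) ∨ (x.1 = p ∧ x.2 < p))) ∧
  (∀ p : ℕ, p.Prime → ∀ x : ℕ × ℕ, x ∈ prim p ↔
    (x = (1, 0) ∨ (x.1 = p ∧ 0 < x.2 ∧ x.2 < p) ∨ (x.1 = p ^ 2 ∧ x.2 < p ^ 2))) ∧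
  (∀ p : ℕ, p.Prime → (hk p).card = p + 1 ∧ (prim p).card = p ^ 2 + p) ∧
  (∀ n : ℕ, ∀ x ∈ hk n, Continuous (ptH n x))

/-- SN-2 HECKE.  The Hecke relations at a prime `p`, with `T_p² = T_{p²} + p` (the form is not
identically zero, and `T_{p²}` is the sum over `prim p` plus the identity). -/
def S_HECKE : Prop :=
  ∀ U : ℂ → ℂ, ∀ T : ℝ, IsHeckeMaass U T → ∀ p : ℕ, p.Prime →
    ∃ c₁ c₂ : ℂ, c₁ ^ 2 = c₂ + (p + 1) ∧ ∀ z : ℂ, 0 < z.im →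
      ∑ x ∈ hk p, U (pt p x z) = c₁ * U z ∧
      ∑ x ∈ prim p, U (pt (p ^ 2) x z) = c₂ * U z

/-- SN-3 PRIMES.  Every point has infinitely many good primes. -/
def S_PRIMES : Prop := ∀ z : ℍ, {p : ℕ | p.Prime ∧ Good z p}.Infinite

/-- SN-4 DISJ.  Primitive Hecke points of levels `p, p²` and `q, q²` are inequivalent at a point for
which `p` and `q` are good. -/
def S_DISJ : Prop :=
  ∀ z : ℍ, ∀ p q : ℕ, p.Prime → q.Prime → p ≠ q → Good z p → Good z q →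
    ∀ a b c d a' b' c' d' : ℤ,
      (a * d - b * c = p ∨ a * d - b * c = p ^ 2) →
      ¬ ((p : ℤ) ∣ a ∧ (p : ℤ) ∣ b ∧ (p : ℤ) ∣ c ∧ (p : ℤ) ∣ d) →
      (a' * d' - b' * c' = q ∨ a' * d' - b' * c' = q ^ 2) →
      ¬ ((q : ℤ) ∣ a' ∧ (q : ℤ) ∣ b' ∧ (q : ℤ) ∣ c' ∧ (q : ℤ) ∣ d') →
      ((a : ℂ) * z + b) * ((c' : ℂ) * z + d') ≠ ((a' : ℂ) * z + b') * ((c : ℂ) * z + d)

/-- SN-5 DISJ2.  The same for the points `ptH` of `idx`, modulo `SL_2(Z)`. -/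
def S_DISJ2 : Prop :=
  ∀ z : ℍ, ∀ p q : ℕ, p.Prime → q.Prime → p ≠ q → Good z p → Good z q →
    ∀ s ∈ idx p, ∀ t ∈ idx q, ∀ g : SL(2, ℤ), g • ptH t.1 t.2 z ≠ ptH s.1 s.2 z

/-- SN-6 COUNT1.  At a good prime few Hecke points of level `p` are on geodesics of
discriminant `D`. -/
def S_COUNT1 : Prop :=
  ∀ z : ℍ, ∀ D : ℤ, 0 < D → ∀ p : ℕ, p.Prime → 2 < p → D < p → Good z p →
    ∀ F : Finset (ℤ × ℤ × ℤ),
      (∀ A B C : ℤ, B ^ 2 - 4 * A * C = D → OnForm A B C z → (A, B, C) ∈ F) →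
      {x : ℕ × ℕ | x ∈ hk p ∧ Geo D (ptH p x z)}.ncard ≤ 2 * F.card + 1

/-- SN-7 COUNT2.  The same for the primitive Hecke points of level `p²`. -/
def S_COUNT2 : Prop :=
  ∀ z : ℍ, ∀ D : ℤ, 0 < D → ∀ p : ℕ, p.Prime → 2 < p → D < p → Good z p →
    ∀ F : Finset (ℤ × ℤ × ℤ),
      (∀ A B C : ℤ, B ^ 2 - 4 * A * C = D → OnForm A B C z → (A, B, C) ∈ F) →
      {x : ℕ × ℕ | x ∈ prim p ∧ Geo D (ptH (p ^ 2) x z)}.ncard ≤ 3 * F.card + 1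

/-- SN-8 FIN.  Finitely many forms of discriminant `D` have geodesics meeting a compact set; so the
union of the geodesics of discriminant `D` is closed. -/
def S_FIN : Prop :=
  (∀ D : ℤ, ∀ K : Set ℍ, IsCompact K →
    {t : ℤ × ℤ × ℤ | t.2.1 ^ 2 - 4 * t.1 * t.2.2 = D ∧
      ∃ e ∈ K, OnForm t.1 t.2.1 t.2.2 e}.Finite) ∧
  (∀ D : ℤ, ∀ w : ℍ, ¬ Geo D w → ∃ η : ℝ, 0 < η ∧ ∀ e : ℍ, Geo D e → η ≤ dist w e)

/-- SN-9 ORB.  Orbits of `SL_2(Z)` are closed, and `SL_2(Z)` acts by isometries. -/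
def S_ORB : Prop :=
  (∀ g : SL(2, ℤ), ∀ z w : ℍ, dist (g • z) (g • w) = dist z w) ∧
  (∀ w w' : ℍ, (∀ g : SL(2, ℤ), g • w' ≠ w) →
    ∃ η : ℝ, 0 < η ∧ ∀ g : SL(2, ℤ), η ≤ dist w (g • w'))

/-- SN-10 HT.  Closed geodesics of discriminant `D` and their neighbourhoods stay below height
`2 √D`: representatives in the fundamental domain. -/
def S_HT : Prop :=
  ∀ D : ℤ, 0 < D → ¬ IsSquare D → ∀ e w : ℍ, Geo D e → dist w e ≤ 1 →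
    ∃ g : SL(2, ℤ), |(g • w).re| ≤ 1 / 2 ∧ 1 / 2 ≤ (g • w).im ∧ (g • w).im ≤ 2 * Real.sqrt D

/-- SN-11 INV.  A Hecke-Maass form is invariant under `SL_2(Z)` and continuous on `ℍ`. -/
def S_INV : Prop :=
  ∀ U : ℂ → ℂ, ∀ T : ℝ, IsHeckeMaass U T →
    (∀ g : SL(2, ℤ), ∀ z : ℍ, U ((g • z : ℍ) : ℂ) = U (z : ℂ)) ∧
    Continuous (fun z : ℍ => U (z : ℂ))

/-- SN-12 LOCAL.  Local combination. -/
def S_LOCAL : Prop :=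
  ∀ D₀ N : ℕ, ∀ z₀ : ℍ, ∃ η : ℝ, 0 < η ∧ ∃ P : Finset ℕ, P.card = N + 1 ∧ ∃ A : ℕ,
    (∀ p ∈ P, p.Prime ∧ 4 * (A + 1) ^ 2 ≤ p) ∧
    ∀ z : ℍ, dist z z₀ ≤ η →
      (∀ p ∈ P, ∀ q ∈ P, p ≠ q → ∀ s ∈ idx p, ∀ t ∈ idx q, ∀ g : SL(2, ℤ),
        η ≤ dist (ptH s.1 s.2 z) (g • ptH t.1 t.2 z)) ∧
      (∀ p ∈ P, {x : ℕ × ℕ | x ∈ hk p ∧ ¬ Far D₀ η (ptH p x z)}.ncard ≤ A ∧
        {x : ℕ × ℕ | x ∈ prim p ∧ ¬ Far D₀ η (ptH (p ^ 2) x z)}.ncard ≤ A)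

/-- SN-13 MAIN.  Large values are found away from `N` arbitrary points and away from the closed
geodesics of discriminant at most `D₀`. -/
def S_MAIN : Prop :=
  ∀ D₀ N : ℕ, ∀ K : Set ℍ, IsCompact K → ∃ L : Set ℍ, IsCompact L ∧ ∃ δ : ℝ, 0 < δ ∧ ∃ C : ℝ,
    ∀ U : ℂ → ℂ, ∀ T : ℝ, IsHeckeMaass U T → ∀ ζ : Fin N → ℍ, ∀ z ∈ K,
      ∃ w ∈ L, Far D₀ δ w ∧ (∀ i, ∀ g : SL(2, ℤ), δ ≤ dist w (g • ζ i)) ∧ ‖U z‖ ≤ C * ‖U w‖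

end Pool.Agent.NH65.SN
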