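import Pool.Agent.NH65.SN.Defs

set_option autoImplicit false
open scoped UpperHalfPlane MatrixGroups

namespace Pool.Agent.NH65.SN.Main

open Pool.Agent.NH65.SN

lemma sum_bound {ι : Type*} (S : Finset ι) (F : ι → Prop) (u : ι → ℝ) (A : ℕ) (M ε : ℝ)
    (hM : 0 ≤ M) (hε : 0 ≤ ε) (hb : {x : ι | x ∈ S ∧ ¬ F x}.ncard ≤ A)
    (h1 : ∀ x ∈ S, ¬ F x → u x ≤ M) (h2 : ∀ x ∈ S, F x → u x ≤ ε) :
    ∑ x ∈ S, u x ≤ A * M + S.card * ε := by
  classical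
  have hset : {x : ι | x ∈ S ∧ ¬ F x} = ((S.filter fun x => ¬ F x : Finset ι) : Set ι) := by
    ext x; simp
  rw [hset, Set.ncard_coe_finset] at hb
  have hsplit := Finset.sum_filter_add_sum_filter_not S F u
  rw [← hsplit]
  have e1 : ∑ x ∈ S.filter F, u x ≤ S.card * ε := by
    calc ∑ x ∈ S.filter F, u x ≤ ∑ x ∈ S.filter F, ε :=
          Finset.sum_le_sum fun x hx => h2 x (Finset.mem_filter.mp hx).1 (Finset.mem_filter.mp hx).2
      _ = (S.filter F).card * ε := by rw [Finset.sum_const, nsmul_eq_mul]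
      _ ≤ S.card * ε := by
          apply mul_le_mul_of_nonneg_right _ hε
          exact_mod_cast Finset.card_filter_le _ _
  have e2 : ∑ x ∈ S.filter (fun x => ¬ F x), u x ≤ A * M := by
    calc ∑ x ∈ S.filter (fun x => ¬ F x), u x ≤ ∑ x ∈ S.filter (fun x => ¬ F x), M :=
          Finset.sum_le_sum fun x hx => h1 x (Finset.mem_filter.mp hx).1 (Finset.mem_filter.mp hx).2
      _ = (S.filter (fun x => ¬ F x)).card * M := by rw [Finset.sum_const, nsmul_eq_mul]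
      _ ≤ A * M := by
          apply mul_le_mul_of_nonneg_right _ hM
          exact_mod_cast hb
  linarith

lemma exists_delta (t : Finset ℍ) (f : ℍ → ℝ) (hf : ∀ z, 0 < f z) :
    ∃ δ : ℝ, 0 < δ ∧ δ ≤ 1 ∧ ∀ z ∈ t, 2 * δ ≤ f z := by
  classical
  induction t using Finset.induction_on with
  | empty => exact ⟨1, one_pos, le_rfl, by simp⟩
  | insert a s ha ih =>
    obtain ⟨δ, h0, h1, h2⟩ := ih
    refine ⟨min δ (f a / 2), lt_min h0 (by have := hf a; positivity), (min_le_left _ _).trans h1, ?_⟩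
    intro z hz
    rcases Finset.mem_insert.mp hz with rfl | hz
    · have := min_le_right δ (f z / 2); linarith
    · have := min_le_left δ (f a / 2); have := h2 z hz; linarith

lemma isCompact_box (r : ℝ) : IsCompact {z : ℍ | |z.re| ≤ 1 / 2 ∧ 1 / 2 ≤ z.im ∧ z.im ≤ r} := by
  have hK : IsCompact {z : ℂ | |z.re| ≤ 1 / 2 ∧ 1 / 2 ≤ z.im ∧ z.im ≤ r} := by
    apply Metric.isCompact_of_isClosed_isBounded
    · have c1 : IsClosed {z : ℂ | |z.re| ≤ 1 / 2} :=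
        isClosed_le Complex.continuous_re.abs continuous_const
      have c2 : IsClosed {z : ℂ | 1 / 2 ≤ z.im} := isClosed_le continuous_const Complex.continuous_im
      have c3 : IsClosed {z : ℂ | z.im ≤ r} := isClosed_le Complex.continuous_im continuous_const
      exact c1.inter (c2.inter c3)
    · rw [Metric.isBounded_iff_subset_closedBall 0]
      refine ⟨1 / 2 + |r|, ?_⟩
      rintro z ⟨h1, h2, h3⟩
      rw [mem_closedBall_zero_iff]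
      refine (Complex.norm_le_abs_re_add_abs_im z).trans ?_
      have : |z.im| ≤ |r| := by
        rw [abs_of_pos (by linarith : 0 < z.im)]
        exact h3.trans (le_abs_self r)
      linarith
  have hemb := UpperHalfPlane.isOpenEmbedding_coe.isEmbedding.isInducing
  have hsub : {z : ℂ | |z.re| ≤ 1 / 2 ∧ 1 / 2 ≤ z.im ∧ z.im ≤ r} ⊆ Set.range ((↑) : ℍ → ℂ) := by
    rintro z ⟨h1, h2, h3⟩
    exact ⟨⟨z, by linarith⟩, rfl⟩
  have := (hemb.isCompact_preimage_iff hsub).mpr hK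
  exact this

lemma hk_of_idx {p : ℕ} {s : ℕ × (ℕ × ℕ)} (hs : s ∈ idx p) : s.2 ∈ hk s.1 := by
  rcases Finset.mem_union.mp hs with h | h
  · obtain ⟨x, hx, rfl⟩ := Finset.mem_image.mp h
    exact hx
  · obtain ⟨x, hx, rfl⟩ := Finset.mem_image.mp h
    exact Finset.mem_of_mem_erase hx

theorem s_main (h1 : S_HPT) (h2 : S_HECKE) (h9 : S_ORB) (h10 : S_HT) (h11 : S_INV)
    (h12 : S_LOCAL) : S_MAIN := by
  classical
  intro D₀ N K hK
  obtain ⟨hpt, -, -, hcard, hcont⟩ := h1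
  obtain ⟨hiso, -⟩ := h9
  set Kg : Set ℍ := {z : ℍ | |z.re| ≤ 1 / 2 ∧ 1 / 2 ≤ z.im ∧ z.im ≤ 2 * Real.sqrt D₀} with hKg
  have hK2 : IsCompact (K ∪ Kg) := hK.union (isCompact_box _)
  choose η hη P hP A hPp' hloc using h12 D₀ N
  obtain ⟨t, -, ht⟩ := hK2.elim_nhds_subcover (fun z₀ => Metric.ball z₀ (η z₀))
    (fun z _ => Metric.ball_mem_nhds z (hη z))
  obtain ⟨δ, hδ0, hδ1, hδ⟩ := exists_delta t η hη
  set L : Set ℍ := ⋃ z₀ ∈ t, ⋃ p ∈ P z₀, ⋃ s ∈ idx p, ptH s.1 s.2 '' Metric.closedBall z₀ (η z₀)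
    with hL
  have hLc : IsCompact L := by
    refine t.isCompact_biUnion fun z₀ _ => ?_
    refine (P z₀).isCompact_biUnion fun p _ => ?_
    refine (idx p).isCompact_biUnion fun s hs => ?_
    exact (isCompact_closedBall z₀ (η z₀)).image (hcont s.1 s.2 (hk_of_idx hs))
  obtain ⟨C, hCle⟩ : ∃ C : ℝ, ∀ z₀ ∈ t, ∀ p ∈ P z₀, 2 * ((p : ℝ) ^ 2 + p + 1) ≤ C := by
    refine ⟨∑ z₀ ∈ t, ∑ p ∈ P z₀, 2 * ((p : ℝ) ^ 2 + p + 1), ?_⟩
    intro z₀ hz₀ p hp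
    have e1 : 2 * ((p : ℝ) ^ 2 + p + 1) ≤ ∑ p ∈ P z₀, 2 * ((p : ℝ) ^ 2 + p + 1) :=
      Finset.single_le_sum (f := fun p : ℕ => 2 * ((p : ℝ) ^ 2 + p + 1))
        (fun i _ => by positivity) hp
    have e2 : (∑ p ∈ P z₀, 2 * ((p : ℝ) ^ 2 + p + 1)) ≤
        ∑ z₀ ∈ t, ∑ p ∈ P z₀, 2 * ((p : ℝ) ^ 2 + p + 1) :=
      Finset.single_le_sum (f := fun z₀ => ∑ p ∈ P z₀, 2 * ((p : ℝ) ^ 2 + p + 1))
        (fun i _ => by positivity) hz₀
    exact e1.trans e2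
  refine ⟨L, hLc, δ, hδ0, C, ?_⟩
  intro U T hU ζ z₁ hz₁
  by_contra hcon
  push Not at hcon
  obtain ⟨hinv, hUc⟩ := h11 U T hU
  -- the maximum on `K ∪ Kg`
  obtain ⟨zm, hzm, hmax⟩ := hK2.exists_isMaxOn ⟨z₁, Or.inl hz₁⟩ (hUc.norm.continuousOn)
  obtain ⟨M, hM⟩ : ∃ M : ℝ, M = ‖U zm‖ := ⟨_, rfl⟩
  have hmax' : ∀ z ∈ K ∪ Kg, ‖U z‖ ≤ M := fun z hz => by rw [hM]; exact hmax hz
  have hM1 : ‖U z₁‖ ≤ M := hmax' z₁ (Or.inl hz₁)
  have hM0 : 0 ≤ M := by rw [hM]; exact norm_nonneg _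
  obtain ⟨z₀, hz₀t, hz₀⟩ : ∃ z₀ ∈ t, zm ∈ Metric.ball z₀ (η z₀) := by
    have := ht hzm
    simpa only [Set.mem_iUnion, exists_prop] using this
  have hd : dist zm z₀ ≤ η z₀ := (Metric.mem_ball.mp hz₀).le
  obtain ⟨ha, hb⟩ := hloc z₀ zm hd
  have hPp := hPp' z₀
  have hmemL : ∀ p ∈ P z₀, ∀ s ∈ idx p, ptH s.1 s.2 zm ∈ L := by
    intro p hp s hs
    simp only [hL, Set.mem_iUnion]
    exact ⟨z₀, hz₀t, p, hp, s, hs, zm, Metric.mem_closedBall.mpr hd, rfl⟩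
  -- choice of the prime
  obtain ⟨p, hp, hpζ⟩ : ∃ p ∈ P z₀, ∀ s ∈ idx p, ∀ i, ∀ g : SL(2, ℤ),
      δ ≤ dist (ptH s.1 s.2 zm) (g • ζ i) := by
    by_contra hno
    push Not at hno
    have hne : Nonempty (Fin N) := by
      have hc : 0 < (P z₀).card := by rw [hP z₀]; omega
      obtain ⟨p, hp⟩ := Finset.card_pos.mp hc
      obtain ⟨-, -, i, -⟩ := hno p hp
      exact ⟨i⟩
    choose! s hs i g hlt using hno
    have hcardlt : (Finset.univ : Finset (Fin N)).card < (P z₀).card := by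
      rw [hP z₀, Finset.card_univ, Fintype.card_fin]; omega
    obtain ⟨p, hp, q, hq, hpq, hipq⟩ := Finset.exists_ne_map_eq_of_card_lt_of_maps_to hcardlt
      (f := i) (fun _ _ => Finset.mem_univ _)
    have h3 := ha p hp q hq hpq (s p) (hs p hp) (s q) (hs q hq) (g p * (g q)⁻¹)
    have h4 := hlt p hp
    have h5 := hlt q hq
    have e : g p • ζ (i p) = (g p * (g q)⁻¹) • (g q • ζ (i q)) := by
      rw [smul_smul, mul_assoc, inv_mul_cancel, mul_one, hipq]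
    have h6 : dist (ptH (s p).1 (s p).2 zm) ((g p * (g q)⁻¹) • ptH (s q).1 (s q).2 zm) < 2 * δ := by
      calc dist (ptH (s p).1 (s p).2 zm) ((g p * (g q)⁻¹) • ptH (s q).1 (s q).2 zm)
          ≤ dist (ptH (s p).1 (s p).2 zm) (g p • ζ (i p))
            + dist (g p • ζ (i p)) ((g p * (g q)⁻¹) • ptH (s q).1 (s q).2 zm) :=
            dist_triangle _ _ _
        _ < δ + δ := by
            refine add_lt_add h4 ?_
            rw [e, hiso, dist_comm]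
            exact h5
        _ = 2 * δ := by ring
    have := hδ z₀ hz₀t
    linarith
  obtain ⟨hpp, hpA⟩ := hPp p hp
  have hFar : ∀ w : ℍ, Far D₀ (η z₀) w → Far D₀ δ w := by
    intro w hw D hD1 hD2 hD3 e he
    have := hw D hD1 hD2 hD3 e he
    have := hδ z₀ hz₀t
    linarith
  -- bad points are bounded by `M`
  have hbad : ∀ w : ℍ, ¬ Far D₀ δ w → ‖U w‖ ≤ M := by
    intro w hw
    unfold Far at hw
    push Not at hw
    obtain ⟨D, hD1, hD2, hD3, e, he, hlt⟩ := hw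
    obtain ⟨g, hg1, hg2, hg3⟩ := h10 D hD1 hD3 e w he (hlt.le.trans hδ1)
    rw [← hinv g w]
    refine hmax' _ (Or.inr ⟨hg1, hg2, hg3.trans ?_⟩)
    have : Real.sqrt (D : ℝ) ≤ Real.sqrt (D₀ : ℝ) := by
      apply Real.sqrt_le_sqrt
      exact_mod_cast hD2
    linarith
  have hCp := hCle z₀ hz₀t p hp
  have hp2 : (0 : ℝ) < 2 * ((p : ℝ) ^ 2 + p + 1) := by positivity
  have hC0 : 0 < C := lt_of_lt_of_le hp2 hCp
  -- good points
  have hgood : ∀ s ∈ idx p, Far D₀ δ (ptH s.1 s.2 zm) →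
      C * ‖U (ptH s.1 s.2 zm : ℍ)‖ < ‖U z₁‖ := by
    intro s hs hF
    exact hcon _ (hmemL p hp s hs) hF (fun i g => hpζ s hs i g)
  have hgood' : ∀ s ∈ idx p, Far D₀ δ (ptH s.1 s.2 zm) → ‖U (ptH s.1 s.2 zm : ℍ)‖ ≤ M / C := by
    intro s hs hF
    rw [le_div_iff₀ hC0]
    have := hgood s hs hF
    linarith
  have hA4 : (4 : ℝ) * (A z₀ + 1) ^ 2 ≤ p := by exact_mod_cast hpA
  have hApos : (0 : ℝ) ≤ A z₀ := Nat.cast_nonneg _
  obtain ⟨hb1, hb2⟩ := hb p hp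
  have hi1 : ∀ x ∈ hk p, (p, x) ∈ idx p := fun x hx =>
    Finset.mem_union_left _ (Finset.mem_image_of_mem _ hx)
  have hi2 : ∀ x ∈ prim p, (p ^ 2, x) ∈ idx p := fun x hx =>
    Finset.mem_union_right _ (Finset.mem_image_of_mem _ hx)
  have hfin1 : {x : ℕ × ℕ | x ∈ hk p ∧ ¬ Far D₀ (η z₀) (ptH p x zm)}.Finite :=
    (hk p).finite_toSet.subset fun x hx => hx.1
  have hfin2 : {x : ℕ × ℕ | x ∈ prim p ∧ ¬ Far D₀ (η z₀) (ptH (p ^ 2) x zm)}.Finite :=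
    (prim p).finite_toSet.subset fun x hx => hx.1
  have hb1' : {x : ℕ × ℕ | x ∈ hk p ∧ ¬ Far D₀ δ (ptH p x zm)}.ncard ≤ A z₀ :=
    (Set.ncard_le_ncard (by
      intro x hx
      exact And.intro hx.1 fun h => hx.2 (hFar _ h)) hfin1).trans hb1
  have hb2' : {x : ℕ × ℕ | x ∈ prim p ∧ ¬ Far D₀ δ (ptH (p ^ 2) x zm)}.ncard ≤ A z₀ :=
    (Set.ncard_le_ncard (by
      intro x hx
      exact And.intro hx.1 fun h => hx.2 (hFar _ h)) hfin2).trans hb2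
  -- positivity of `M`
  have hMpos : 0 < M := by
    by_contra hM'
    have hM'' : M = 0 := le_antisymm (not_lt.mp hM') hM0
    have hall : ∀ x ∈ hk p, ¬ Far D₀ δ (ptH p x zm) := by
      intro x hx hF
      have := hgood (p, x) (hi1 x hx) hF
      have h0 : 0 ≤ C * ‖U (ptH p x zm : ℍ)‖ := mul_nonneg hC0.le (norm_nonneg _)
      have h00 : C * ‖U (ptH p x zm : ℍ)‖ < ‖U z₁‖ := this
      linarith
    have hset : {x : ℕ × ℕ | x ∈ hk p ∧ ¬ Far D₀ δ (ptH p x zm)} = ((hk p : Finset (ℕ × ℕ)) : Set (ℕ × ℕ)) := by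
      ext x
      exact ⟨fun h => h.1, fun h => ⟨h, hall x h⟩⟩
    rw [hset, Set.ncard_coe_finset, (hcard p hpp).1] at hb1'
    nlinarith
  obtain ⟨c₁, c₂, hc, hH⟩ := h2 U T hU p hpp
  obtain ⟨hH1, hH2⟩ := hH zm zm.im_pos
  have hε : 0 ≤ M / C := div_nonneg hM0 hC0.le
  have s1 : ‖c₁‖ * M ≤ A z₀ * M + (hk p).card * (M / C) := by
    have e0 : ‖c₁‖ * M = ‖∑ x ∈ hk p, U (pt p x zm)‖ := by rw [hH1, norm_mul, hM]
    rw [e0]
    refine (norm_sum_le _ _).trans ?_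
    refine sum_bound (hk p) (fun x => Far D₀ δ (ptH p x zm)) _ (A z₀) M (M / C) hM0 hε hb1' ?_ ?_
    · intro x hx hF
      rw [← hpt p x hx zm]
      exact hbad _ hF
    · intro x hx hF
      rw [← hpt p x hx zm]
      exact hgood' (p, x) (hi1 x hx) hF
  have s2 : ‖c₂‖ * M ≤ A z₀ * M + (prim p).card * (M / C) := by
    have e0 : ‖c₂‖ * M = ‖∑ x ∈ prim p, U (pt (p ^ 2) x zm)‖ := by rw [hH2, norm_mul, hM]
    rw [e0]
    refine (norm_sum_le _ _).trans ?_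
    refine sum_bound (prim p) (fun x => Far D₀ δ (ptH (p ^ 2) x zm)) _ (A z₀) M (M / C) hM0 hε
      hb2' ?_ ?_
    · intro x hx hF
      rw [← hpt (p ^ 2) x (Finset.mem_of_mem_erase hx) zm]
      exact hbad _ hF
    · intro x hx hF
      rw [← hpt (p ^ 2) x (Finset.mem_of_mem_erase hx) zm]
      exact hgood' (p ^ 2, x) (hi2 x hx) hF
  rw [(hcard p hpp).1] at s1
  rw [(hcard p hpp).2] at s2
  have hppos : (0 : ℝ) ≤ p := Nat.cast_nonneg _
  have q1 : ‖c₁‖ ≤ A z₀ + 1 / 2 := by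
    have h3 : ((p + 1 : ℕ) : ℝ) * (M / C) ≤ 1 / 2 * M := by
      rw [← mul_div_assoc, div_le_iff₀ hC0]
      push_cast
      nlinarith [mul_le_mul_of_nonneg_left hCp hM0, sq_nonneg (p : ℝ), mul_nonneg hM0 (sq_nonneg (p : ℝ))]
    have h4 : ‖c₁‖ * M ≤ (A z₀ + 1 / 2) * M := by linarith
    exact le_of_mul_le_mul_right h4 hMpos
  have q2 : ‖c₂‖ ≤ A z₀ + 1 / 2 := by
    have h3 : ((p ^ 2 + p : ℕ) : ℝ) * (M / C) ≤ 1 / 2 * M := by
      rw [← mul_div_assoc, div_le_iff₀ hC0]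
      push_cast
      nlinarith [mul_le_mul_of_nonneg_left hCp hM0, sq_nonneg (p : ℝ), mul_nonneg hM0 (sq_nonneg (p : ℝ))]
    have h4 : ‖c₂‖ * M ≤ (A z₀ + 1 / 2) * M := by linarith
    exact le_of_mul_le_mul_right h4 hMpos
  have q3 : (p : ℝ) + 1 ≤ ‖c₁‖ ^ 2 + ‖c₂‖ := by
    have : ((p : ℂ) + 1) = c₁ ^ 2 - c₂ := by rw [hc]; ring
    have h5 : ‖((p : ℂ) + 1)‖ ≤ ‖c₁‖ ^ 2 + ‖c₂‖ := by
      rw [this]
      refine (norm_sub_le _ _).trans ?_
      rw [norm_pow]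
    have h6 : ‖((p : ℂ) + 1)‖ = (p : ℝ) + 1 := by
      have : ((p : ℂ) + 1) = (((p : ℝ) + 1 : ℝ) : ℂ) := by push_cast; rfl
      rw [this, Complex.norm_real, Real.norm_of_nonneg (by positivity)]
    linarith
  have q4 : ‖c₁‖ ^ 2 ≤ (A z₀ + 1 / 2) ^ 2 := pow_le_pow_left₀ (norm_nonneg _) q1 2
  nlinarith

end Pool.Agent.NH65.SN.Main
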